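import Mathlib

/-!
# Project PTC: Ex(P, n) = n^(1+o(1)) for acyclic 0-1 patterns. Definitions.

An element is a pair `e = (line, position)`. The block of height `h` of `e` consists of the elements of
the same line with the same value of `position / B ^ h`.
-/

set_option autoImplicit false

namespace Pool.Agent.PTC

/-- The elements of `A` in the same line and in the same block of height `h` as `e`. -/
def seg (B h : ℕ) (A : Finset (ℕ × ℕ)) (e : ℕ × ℕ) : Finset (ℕ × ℕ) :=
  A.filter (fun x => x.1 = e.1 ∧ x.2 / B ^ h = e.2 / B ^ h)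

/-- The elements of `A` in the same line and in the same block of height `h + 1` as `e`, whose digit
number `h` is `d`. -/
def sub (B h : ℕ) (A : Finset (ℕ × ℕ)) (e : ℕ × ℕ) (d : ℕ) : Finset (ℕ × ℕ) :=
  A.filter (fun x => x.1 = e.1 ∧ x.2 / B ^ (h + 1) = e.2 / B ^ (h + 1) ∧ (x.2 / B ^ h) % B = d)

/-- The constant lost at a heavy level. -/
def DD (K : ℕ) : ℕ := (K + 1) * 2 ^ K * 2 ^ (2 ^ K)

end Pool.Agent.PTC
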