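import Mathlib
import Pool.Agent.PTC.Defs

set_option autoImplicit false

namespace Pool.Agent.PTC

/-- The block of an element. -/
private def lvl_f (K : ℕ) (e : ℕ × ℕ) : ℕ × ℕ := (e.1, e.2 / 2 ^ K)

private theorem lvl_dyadic (K n : ℕ) (h1 : 1 ≤ n) (h2 : n ≤ 2 ^ K) :
    n ≤ ∑ a ∈ Finset.range (K + 1), if 2 ^ a ≤ n then 2 ^ a else 0 := by
  have hlog : Nat.log 2 n ≤ K := by
    calc Nat.log 2 n ≤ Nat.log 2 (2 ^ K) := Nat.log_mono_right h2
      _ = K := Nat.log_pow (by norm_num) K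
  have hsub : Finset.range (Nat.log 2 n + 1) ⊆ Finset.range (K + 1) := by
    intro a ha
    rw [Finset.mem_range] at ha ⊢
    omega
  calc n ≤ 2 ^ (Nat.log 2 n + 1) - 1 := by
        have := Nat.lt_pow_succ_log_self (b := 2) (by norm_num) n
        omega
    _ = ∑ a ∈ Finset.range (Nat.log 2 n + 1), 2 ^ a := by
        rw [Nat.geomSum_eq (le_refl 2)]
        simp
    _ = ∑ a ∈ Finset.range (Nat.log 2 n + 1), if 2 ^ a ≤ n then 2 ^ a else 0 := by
        refine Finset.sum_congr rfl (fun a ha => ?_)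
        rw [Finset.mem_range] at ha
        rw [if_pos]
        exact Nat.pow_le_of_le_log (by omega) (by omega)
    _ ≤ _ := Finset.sum_le_sum_of_subset hsub

private theorem lvl_pigeon (K N : ℕ) (x : ℕ → ℕ) (h : N ≤ ∑ a ∈ Finset.range (K + 1), x a) :
    ∃ a ≤ K, N ≤ (K + 1) * x a := by
  by_contra hc
  push Not at hc
  have h1 : ∑ a ∈ Finset.range (K + 1), (K + 1) * x a < ∑ a ∈ Finset.range (K + 1), N := by
    refine Finset.sum_lt_sum_of_nonempty ⟨0, by simp⟩ (fun a ha => ?_)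
    rw [Finset.mem_range] at ha
    exact hc a (by omega)
  rw [← Finset.mul_sum, Finset.sum_const, Finset.card_range, smul_eq_mul] at h1
  have h2 := Nat.mul_le_mul_left (K + 1) h
  omega

/-- LVL: one level of the construction. `M` is the set of the kept blocks (line, position / 2 ^ K). -/
theorem level (K J : ℕ) (hJ : 1 ≤ J) (A : Finset (ℕ × ℕ)) (hA : A.Nonempty) :
    ∃ (t : ℕ) (M A1 : Finset (ℕ × ℕ)), A1 ⊆ A ∧ 0 < t ∧
      (∀ e ∈ A1, (e.1, e.2 / 2 ^ K) ∈ M) ∧
      (∀ b ∈ M, (A1.filter (fun x => x.1 = b.1 ∧ x.2 / 2 ^ K = b.2)).card = t) ∧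
      ((t < J ∧ A.card ≤ (K + 1) * t * M.card) ∨
        (t = J ∧ A.card ≤ DD K * M.card ∧ ∃ ι : Finset ℕ, ι.card = J ∧ ι ⊆ Finset.range (2 ^ K) ∧
          ∀ b ∈ M, ∀ d ∈ ι, (b.1, 2 ^ K * b.2 + d) ∈ A1)) := by
  classical
  have hpos : 0 < 2 ^ K := by positivity
  set f : ℕ × ℕ → ℕ × ℕ := lvl_f K with hf
  set Blk := A.image f with hBlk
  set F : ℕ × ℕ → Finset (ℕ × ℕ) := fun b => A.filter (fun x => f x = b) with hF
  -- digits of a block
  set D : ℕ × ℕ → Finset ℕ := fun b => (F b).image (fun x => x.2 % 2 ^ K) with hD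
  have hDcard : ∀ b, (D b).card = (F b).card := by
    intro b
    refine Finset.card_image_of_injOn ?_
    intro x hx y hy hxy
    have hx2 : (x.1, x.2 / 2 ^ K) = b := (Finset.mem_filter.mp (Finset.mem_coe.mp hx)).2
    have hy2 : (y.1, y.2 / 2 ^ K) = b := (Finset.mem_filter.mp (Finset.mem_coe.mp hy)).2
    have hxy2 : (x.1, x.2 / 2 ^ K) = (y.1, y.2 / 2 ^ K) := hx2.trans hy2.symm
    have h1 : x.1 = y.1 := (Prod.ext_iff.mp hxy2).1
    have h2 : x.2 / 2 ^ K = y.2 / 2 ^ K := (Prod.ext_iff.mp hxy2).2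
    have h3 : x.2 % 2 ^ K = y.2 % 2 ^ K := hxy
    have h4 : x.2 = y.2 := by
      rw [← Nat.div_add_mod x.2 (2 ^ K), ← Nat.div_add_mod y.2 (2 ^ K), h2, h3]
    exact Prod.ext h1 h4
  have hDsub : ∀ b, D b ⊆ Finset.range (2 ^ K) := by
    intro b d hd
    simp only [hD, Finset.mem_image] at hd
    obtain ⟨x, _, rfl⟩ := hd
    exact Finset.mem_range.mpr (Nat.mod_lt _ hpos)
  have hs2 : ∀ b, (F b).card ≤ 2 ^ K := by
    intro b
    rw [← hDcard b]
    calc (D b).card ≤ (Finset.range (2 ^ K)).card := Finset.card_le_card (hDsub b)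
      _ = 2 ^ K := Finset.card_range _
  have hs1 : ∀ b ∈ Blk, 1 ≤ (F b).card := by
    intro b hb
    rw [hBlk, Finset.mem_image] at hb
    obtain ⟨x, hx, hxb⟩ := hb
    exact Finset.card_pos.mpr ⟨x, Finset.mem_filter.mpr ⟨hx, hxb⟩⟩
  have hsum : A.card = ∑ b ∈ Blk, (F b).card :=
    Finset.card_eq_sum_card_image f A
  obtain ⟨a, haK, ha⟩ : ∃ a ≤ K, A.card ≤ (K + 1) * (2 ^ a * (Blk.filter (fun b => 2 ^ a ≤ (F b).card)).card) := by
    refine lvl_pigeon K A.card (fun a => 2 ^ a * (Blk.filter (fun b => 2 ^ a ≤ (F b).card)).card) ?_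
    calc A.card = ∑ b ∈ Blk, (F b).card := hsum
      _ ≤ ∑ b ∈ Blk, ∑ a ∈ Finset.range (K + 1), (if 2 ^ a ≤ (F b).card then 2 ^ a else 0) :=
          Finset.sum_le_sum (fun b hb => lvl_dyadic K _ (hs1 b hb) (hs2 b))
      _ = ∑ a ∈ Finset.range (K + 1), ∑ b ∈ Blk, (if 2 ^ a ≤ (F b).card then 2 ^ a else 0) :=
          Finset.sum_comm
      _ = ∑ a ∈ Finset.range (K + 1), 2 ^ a * (Blk.filter (fun b => 2 ^ a ≤ (F b).card)).card := by
          refine Finset.sum_congr rfl (fun a _ => ?_)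
          rw [← Finset.sum_filter, Finset.sum_const, smul_eq_mul, mul_comm]
  set M := Blk.filter (fun b => 2 ^ a ≤ (F b).card) with hM
  by_cases hcase : 2 ^ a < J
  · -- light level
    have hch : ∀ b : ℕ × ℕ, ∃ T : Finset (ℕ × ℕ), b ∈ M → (T ⊆ F b ∧ T.card = 2 ^ a) := by
      intro b
      by_cases hb : b ∈ M
      · obtain ⟨T, hT1, hT2⟩ := Finset.exists_subset_card_eq (Finset.mem_filter.mp hb).2
        exact ⟨T, fun _ => ⟨hT1, hT2⟩⟩
      · exact ⟨∅, fun h => absurd h hb⟩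
    choose T hT using hch
    refine ⟨2 ^ a, M, M.biUnion T, ?_, by positivity, ?_, ?_, Or.inl ⟨hcase, by rw [mul_assoc]; exact ha⟩⟩
    · intro x hx
      obtain ⟨b, hb, hxb⟩ := Finset.mem_biUnion.mp hx
      exact (Finset.mem_filter.mp ((hT b hb).1 hxb)).1
    · intro x hx
      obtain ⟨b, hb, hxb⟩ := Finset.mem_biUnion.mp hx
      have h := (Finset.mem_filter.mp ((hT b hb).1 hxb)).2
      have h' : (x.1, x.2 / 2 ^ K) = b := h
      rw [h']
      exact hb
    · intro b hb
      rw [← (hT b hb).2]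
      congr 1
      ext x
      rw [Finset.mem_filter, Finset.mem_biUnion]
      constructor
      · rintro ⟨⟨b', hb', hxb'⟩, h1, h2⟩
        have h := (Finset.mem_filter.mp ((hT b' hb').1 hxb')).2
        have h' : (x.1, x.2 / 2 ^ K) = b' := h
        have h3 : b' = b := by rw [← h']; exact Prod.ext h1 h2
        rw [← h3]
        exact hxb'
      · intro hx
        have h := (Finset.mem_filter.mp ((hT b hb).1 hx)).2
        have h' : (x.1, x.2 / 2 ^ K) = b := h
        exact ⟨⟨b, hb, hx⟩, by rw [← h'], by rw [← h']⟩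
  · -- heavy level
    push Not at hcase
    have hch : ∀ b : ℕ × ℕ, ∃ T : Finset ℕ, b ∈ M → (T ⊆ D b ∧ T.card = J) := by
      intro b
      by_cases hb : b ∈ M
      · have h1 : J ≤ (D b).card := by
          rw [hDcard b]
          exact le_trans hcase (Finset.mem_filter.mp hb).2
        obtain ⟨T, hT1, hT2⟩ := Finset.exists_subset_card_eq h1
        exact ⟨T, fun _ => ⟨hT1, hT2⟩⟩
      · exact ⟨∅, fun h => absurd h hb⟩
    choose T hT using hch
    -- pigeonhole
    have hJK : J ≤ (Finset.range (2 ^ K)).card := by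
      rw [Finset.card_range]
      exact le_trans hcase (Nat.pow_le_pow_right (by norm_num) haK)
    set W := (Finset.range (2 ^ K)).powersetCard J with hW
    have hWne : W.Nonempty := Finset.powersetCard_nonempty.mpr hJK
    have hWcard : W.card ≤ 2 ^ (2 ^ K) := by
      calc W.card ≤ (Finset.range (2 ^ K)).powerset.card := by
            refine Finset.card_le_card ?_
            intro s hs
            exact Finset.mem_powerset.mpr (Finset.mem_powersetCard.mp hs).1
        _ = 2 ^ (2 ^ K) := by rw [Finset.card_powerset, Finset.card_range]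
    have hmap : ∀ b ∈ M, T b ∈ W := by
      intro b hb
      exact Finset.mem_powersetCard.mpr ⟨(hT b hb).1.trans (hDsub b), (hT b hb).2⟩
    have hMsum : M.card = ∑ w ∈ W, (M.filter (fun b => T b = w)).card :=
      Finset.card_eq_sum_card_fiberwise hmap
    obtain ⟨ι, hι, hιc⟩ : ∃ ι ∈ W, M.card ≤ W.card * (M.filter (fun b => T b = ι)).card := by
      by_contra hc
      push Not at hc
      have h1 : ∑ w ∈ W, W.card * (M.filter (fun b => T b = w)).card < ∑ w ∈ W, M.card :=
        Finset.sum_lt_sum_of_nonempty hWne hc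
      rw [← Finset.mul_sum, ← hMsum, Finset.sum_const, smul_eq_mul] at h1
      exact lt_irrefl _ h1
    have hι' := Finset.mem_powersetCard.mp hι
    set M' := M.filter (fun b => T b = ι) with hM'
    set A1 := (M' ×ˢ ι).image (fun p : (ℕ × ℕ) × ℕ => (p.1.1, 2 ^ K * p.1.2 + p.2)) with hA1
    have hdiv : ∀ (b d : ℕ), d ∈ ι → (2 ^ K * b + d) / 2 ^ K = b := by
      intro b d hd
      have hd' := Finset.mem_range.mp (hι'.1 hd)
      rw [Nat.mul_add_div hpos, Nat.div_eq_of_lt hd', add_zero]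
    refine ⟨J, M', A1, ?_, hJ, ?_, ?_, Or.inr ⟨rfl, ?_, ι, hι'.2, hι'.1, ?_⟩⟩
    · intro x hx
      rw [hA1, Finset.mem_image] at hx
      obtain ⟨⟨b, d⟩, hbd, rfl⟩ := hx
      rw [Finset.mem_product] at hbd
      obtain ⟨hb, hd⟩ := hbd
      simp only at hb hd ⊢
      have hb2 := Finset.mem_filter.mp hb
      have hd2 : d ∈ D b := (hT b hb2.1).1 (by rw [hb2.2]; exact hd)
      simp only [hD, Finset.mem_image] at hd2
      obtain ⟨x, hx, hxd⟩ := hd2
      simp only [hF, Finset.mem_filter] at hx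
      have h' : (x.1, x.2 / 2 ^ K) = b := hx.2
      have h3 : x = (b.1, 2 ^ K * b.2 + d) := by
        refine Prod.ext (by rw [← h']) ?_
        rw [← h', ← hxd]
        exact (Nat.div_add_mod x.2 (2 ^ K)).symm
      rw [← h3]
      exact hx.1
    · intro x hx
      rw [hA1, Finset.mem_image] at hx
      obtain ⟨⟨b, d⟩, hbd, rfl⟩ := hx
      rw [Finset.mem_product] at hbd
      obtain ⟨hb, hd⟩ := hbd
      simp only at hb hd ⊢
      rw [hdiv b.2 d hd]
      exact hb
    · intro b hb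
      have h1 : A1.filter (fun x => x.1 = b.1 ∧ x.2 / 2 ^ K = b.2) =
          ι.image (fun d => (b.1, 2 ^ K * b.2 + d)) := by
        ext x
        rw [Finset.mem_filter, hA1, Finset.mem_image, Finset.mem_image]
        constructor
        · rintro ⟨⟨⟨b', d⟩, hbd, rfl⟩, h1, h2⟩
          rw [Finset.mem_product] at hbd
          obtain ⟨hb', hd⟩ := hbd
          simp only at hb' hd h1 h2 ⊢
          rw [hdiv b'.2 d hd] at h2
          exact ⟨d, hd, by rw [h1, h2]⟩
        · rintro ⟨d, hd, rfl⟩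
          exact ⟨⟨(b, d), Finset.mem_product.mpr ⟨hb, hd⟩, rfl⟩, rfl, hdiv b.2 d hd⟩
      rw [h1, Finset.card_image_of_injective, hι'.2]
      intro d d' hdd
      have := congrArg Prod.snd hdd
      simp only at this
      omega
    · calc A.card ≤ (K + 1) * (2 ^ a * M.card) := ha
        _ ≤ (K + 1) * (2 ^ K * (2 ^ (2 ^ K) * M'.card)) := by
            refine Nat.mul_le_mul_left _ (Nat.mul_le_mul (Nat.pow_le_pow_right (by norm_num) haK) ?_)
            exact le_trans hιc (Nat.mul_le_mul_right _ hWcard)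
        _ = DD K * M'.card := by rw [DD]; ring
    · intro b hb d hd
      rw [hA1, Finset.mem_image]
      exact ⟨(b, d), Finset.mem_product.mpr ⟨hb, hd⟩, rfl⟩

end Pool.Agent.PTC
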