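import Mathlib
import Pool.Agent.PTC.Defs
import Pool.Agent.PTC.LVL

set_option autoImplicit false

namespace Pool.Agent.PTC

/-- the block of height one -/
private def bpi (B : ℕ) (x : ℕ × ℕ) : ℕ × ℕ := (x.1, x.2 / B)

/-- the elements of `A1` whose block is in `N` -/
private def bup (B : ℕ) (A1 N : Finset (ℕ × ℕ)) : Finset (ℕ × ℕ) :=
  A1.filter fun x => bpi B x ∈ N

private theorem bup_card (B t : ℕ) (A1 M N : Finset (ℕ × ℕ)) (hN : N ⊆ M)
    (hfib : ∀ b ∈ M, (A1.filter (fun x => x.1 = b.1 ∧ x.2 / B = b.2)).card = t) :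
    (bup B A1 N).card = t * N.card := by
  have h1 : Set.MapsTo (bpi B) (bup B A1 N) N := by
    intro x hx
    exact (Finset.mem_filter.mp (Finset.mem_coe.mp hx)).2
  rw [Finset.card_eq_sum_card_fiberwise h1]
  have h2 : ∀ b ∈ N, ((bup B A1 N).filter fun x => bpi B x = b).card = t := by
    intro b hb
    rw [← hfib b (hN hb)]
    congr 1
    ext x
    simp only [bup, bpi, Finset.mem_filter, Prod.ext_iff]
    constructor
    · rintro ⟨⟨h3, _⟩, h4⟩
      exact ⟨h3, h4⟩
    · rintro ⟨h3, h4⟩
      refine ⟨⟨h3, ?_⟩, h4⟩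
      have : (x.1, x.2 / B) = b := Prod.ext h4.1 h4.2
      rw [this]
      exact hb
  rw [Finset.sum_congr rfl h2, Finset.sum_const, smul_eq_mul, mul_comm]

private theorem bdiv (B h a : ℕ) : a / B / B ^ h = a / B ^ (h + 1) := by
  rw [Nat.div_div_eq_div_mul, pow_succ']

private theorem bseg (B h : ℕ) (A1 M' : Finset (ℕ × ℕ)) (e : ℕ × ℕ) :
    seg B (h + 1) (bup B A1 M') e = bup B A1 (seg B h M' (bpi B e)) := by
  ext x
  simp only [seg, bup, bpi, Finset.mem_filter, bdiv]
  tauto

private theorem bsub (B h : ℕ) (A1 M' : Finset (ℕ × ℕ)) (e : ℕ × ℕ) (d : ℕ) :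
    sub B (h + 1) (bup B A1 M') e d = bup B A1 (sub B h M' (bpi B e) d) := by
  ext x
  simp only [sub, bup, bpi, Finset.mem_filter, bdiv]
  tauto

private theorem bDD_pos (K : ℕ) : 0 < DD K := by
  unfold DD
  positivity

/-- uniformity passes from the blocks to the elements -/
private theorem bunif (B t J : ℕ) (A1 M M' : Finset (ℕ × ℕ)) (hM' : M' ⊆ M)
    (hfib : ∀ b ∈ M, (A1.filter (fun x => x.1 = b.1 ∧ x.2 / B = b.2)).card = t)
    (h d : ℕ) (e : ℕ × ℕ)
    (hu : J * (sub B h M' (bpi B e) d).card = (seg B (h + 1) M' (bpi B e)).card) :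
    J * (sub B (h + 1) (bup B A1 M') e d).card =
      (seg B (h + 1 + 1) (bup B A1 M') e).card := by
  rw [bsub, bseg, bup_card B t A1 M _ ?_ hfib, bup_card B t A1 M _ ?_ hfib, ← hu]
  · ring
  · exact (Finset.filter_subset _ _).trans hM'
  · exact (Finset.filter_subset _ _).trans hM'

/-- BUILD: `m` exactly uniform levels. -/
theorem build (K J m q n : ℕ) (hJ : 1 ≤ J) (A : Finset (ℕ × ℕ)) (h1 : ∀ e ∈ A, e.1 < n)
    (h2 : ∀ e ∈ A, e.2 < (2 ^ K) ^ q) (hbig : n * ((K + 1) * J) ^ q * DD K ^ m < A.card) :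
    ∃ (T : Finset ℕ) (ι : ℕ → Finset ℕ) (A' : Finset (ℕ × ℕ)), A' ⊆ A ∧ T.card = m ∧
      T ⊆ Finset.range q ∧
      (∀ h ∈ T, (ι h).card = J ∧ ι h ⊆ Finset.range (2 ^ K)) ∧
      A.card ≤ (K + 1) ^ q * DD K ^ m * A'.card ∧
      ∀ h ∈ T, ∀ e ∈ A', ∀ d ∈ ι h,
        J * (sub (2 ^ K) h A' e d).card = (seg (2 ^ K) (h + 1) A' e).card := by
  induction q generalizing m A with
  | zero =>
    exfalso
    have h3 : A ⊆ (Finset.range n).image fun c => (c, 0) := by
      intro e he
      have h4 := h1 e he
      have h5 := h2 e he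
      rw [pow_zero] at h5
      rw [Finset.mem_image]
      refine ⟨e.1, Finset.mem_range.mpr h4, ?_⟩
      ext
      · rfl
      · simp only; omega
    have h4 : A.card ≤ n :=
      (Finset.card_le_card h3).trans (Finset.card_image_le.trans (by simp))
    have h5 : 0 < DD K ^ m := pow_pos (bDD_pos K) m
    rw [pow_zero, mul_one] at hbig
    have h6 : n * 1 ≤ n * DD K ^ m := Nat.mul_le_mul_left n h5
    omega
  | succ q ih =>
    rcases Nat.eq_zero_or_pos m with rfl | hm
    · refine ⟨∅, fun _ => ∅, A, subset_rfl, rfl, by simp, by simp, ?_, by simp⟩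
      have h3 : 0 < (K + 1) ^ (q + 1) := by positivity
      rw [pow_zero, mul_one]
      exact Nat.le_mul_of_pos_left _ h3
    have hA : A.Nonempty := by
      rw [← Finset.card_pos]
      omega
    obtain ⟨t, M, A1, hA1, ht, hmap, hfib, hcase⟩ := level K J hJ A hA
    have hMA : ∀ b ∈ M, ∃ e ∈ A, e.1 = b.1 ∧ e.2 / 2 ^ K = b.2 := by
      intro b hb
      have h3 : 0 < (A1.filter (fun x => x.1 = b.1 ∧ x.2 / 2 ^ K = b.2)).card := by
        rw [hfib b hb]; exact ht
      obtain ⟨e, he⟩ := Finset.card_pos.mp h3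
      rw [Finset.mem_filter] at he
      exact ⟨e, hA1 he.1, he.2.1, he.2.2⟩
    have hM1 : ∀ b ∈ M, b.1 < n := by
      intro b hb
      obtain ⟨e, he, h3, _⟩ := hMA b hb
      rw [← h3]
      exact h1 e he
    have hM2 : ∀ b ∈ M, b.2 < (2 ^ K) ^ q := by
      intro b hb
      obtain ⟨e, he, _, h4⟩ := hMA b hb
      have h5 := h2 e he
      rw [← h4]
      rw [pow_succ] at h5
      exact Nat.div_lt_of_lt_mul (by rw [mul_comm]; exact h5)
    rcases hcase with ⟨htJ, hc⟩ | ⟨htJ, hc, ι0, hι0, hι0r, hin⟩
    · -- light level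
      have hbig' : n * ((K + 1) * J) ^ q * DD K ^ m < M.card := by
        have h3 : (K + 1) * t * M.card ≤ ((K + 1) * J) * M.card :=
          Nat.mul_le_mul_right _ (Nat.mul_le_mul_left _ htJ.le)
        have h4 : ((K + 1) * J) * (n * ((K + 1) * J) ^ q * DD K ^ m) < ((K + 1) * J) * M.card := by
          calc ((K + 1) * J) * (n * ((K + 1) * J) ^ q * DD K ^ m)
              = n * ((K + 1) * J) ^ (q + 1) * DD K ^ m := by ring
            _ < A.card := hbig
            _ ≤ _ := hc.trans h3
        exact lt_of_mul_lt_mul_left h4 (Nat.zero_le _)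
      obtain ⟨T, ι, M', hM', hT, hTq, hι, hcard, hunif⟩ := ih m M hM1 hM2 hbig'
      have hA'c := bup_card (2 ^ K) t A1 M M' hM' hfib
      refine ⟨T.image Nat.succ, fun h => ι (h - 1), bup (2 ^ K) A1 M',
        (Finset.filter_subset _ _).trans hA1, ?_, ?_, ?_, ?_, ?_⟩
      · rw [Finset.card_image_of_injective _ Nat.succ_injective, hT]
      · intro h hh
        obtain ⟨h', hh', rfl⟩ := Finset.mem_image.mp hh
        have := Finset.mem_range.mp (hTq hh')
        exact Finset.mem_range.mpr (by omega)
      · intro h hh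
        obtain ⟨h', hh', rfl⟩ := Finset.mem_image.mp hh
        exact hι h' hh'
      · rw [hA'c]
        calc A.card ≤ (K + 1) * t * M.card := hc
          _ ≤ (K + 1) * t * ((K + 1) ^ q * DD K ^ m * M'.card) := Nat.mul_le_mul_left _ hcard
          _ = (K + 1) ^ (q + 1) * DD K ^ m * (t * M'.card) := by ring
      · intro h hh e he d hd
        obtain ⟨h', hh', rfl⟩ := Finset.mem_image.mp hh
        exact bunif (2 ^ K) t J A1 M M' hM' hfib h' d e
          (hunif h' hh' (bpi (2 ^ K) e) (Finset.mem_filter.mp he).2 d hd)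
    · -- heavy level
      obtain ⟨m', rfl⟩ : ∃ m', m = m' + 1 := ⟨m - 1, by omega⟩
      have hbig' : n * ((K + 1) * J) ^ q * DD K ^ m' < M.card := by
        have h4 : DD K * (n * ((K + 1) * J) ^ q * DD K ^ m') < DD K * M.card := by
          have hpos : 0 < (K + 1) * J := by positivity
          calc DD K * (n * ((K + 1) * J) ^ q * DD K ^ m')
              = 1 * (n * ((K + 1) * J) ^ q * DD K ^ (m' + 1)) := by ring
            _ ≤ ((K + 1) * J) * (n * ((K + 1) * J) ^ q * DD K ^ (m' + 1)) :=
                Nat.mul_le_mul_right _ hpos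
            _ = n * ((K + 1) * J) ^ (q + 1) * DD K ^ (m' + 1) := by ring
            _ < A.card := hbig
            _ ≤ _ := hc
        exact lt_of_mul_lt_mul_left h4 (Nat.zero_le _)
      obtain ⟨T, ι, M', hM', hT, hTq, hι, hcard, hunif⟩ := ih m' M hM1 hM2 hbig'
      have hA'c := bup_card (2 ^ K) t A1 M M' hM' hfib
      have h0 : 0 ∉ T.image Nat.succ := by
        intro h
        obtain ⟨h', _, hh'⟩ := Finset.mem_image.mp h
        exact absurd hh' (Nat.succ_ne_zero _)
      refine ⟨insert 0 (T.image Nat.succ), fun h => if h = 0 then ι0 else ι (h - 1),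
        bup (2 ^ K) A1 M', (Finset.filter_subset _ _).trans hA1, ?_, ?_, ?_, ?_, ?_⟩
      · rw [Finset.card_insert_of_notMem h0,
          Finset.card_image_of_injective _ Nat.succ_injective, hT]
      · intro h hh
        rcases Finset.mem_insert.mp hh with rfl | hh
        · exact Finset.mem_range.mpr (Nat.succ_pos q)
        · obtain ⟨h', hh', rfl⟩ := Finset.mem_image.mp hh
          have := Finset.mem_range.mp (hTq hh')
          exact Finset.mem_range.mpr (by omega)
      · intro h hh
        rcases Finset.mem_insert.mp hh with rfl | hh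
        · simp only [if_true]
          exact ⟨hι0, hι0r⟩
        · obtain ⟨h', hh', rfl⟩ := Finset.mem_image.mp hh
          simp only [Nat.succ_ne_zero, if_false]
          exact hι h' hh'
      · rw [hA'c]
        have hpos : 0 < (K + 1) * t := by positivity
        calc A.card ≤ DD K * M.card := hc
          _ ≤ DD K * ((K + 1) ^ q * DD K ^ m' * M'.card) := Nat.mul_le_mul_left _ hcard
          _ = 1 * ((K + 1) ^ q * DD K ^ (m' + 1) * M'.card) := by ring
          _ ≤ ((K + 1) * t) * ((K + 1) ^ q * DD K ^ (m' + 1) * M'.card) :=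
              Nat.mul_le_mul_right _ hpos
          _ = (K + 1) ^ (q + 1) * DD K ^ (m' + 1) * (t * M'.card) := by ring
      · intro h hh e he d hd
        rcases Finset.mem_insert.mp hh with rfl | hh
        · simp only [if_true] at hd
          have heM : bpi (2 ^ K) e ∈ M' := (Finset.mem_filter.mp he).2
          have hdK : d < 2 ^ K := Finset.mem_range.mp (hι0r hd)
          have hseg : (seg (2 ^ K) (0 + 1) (bup (2 ^ K) A1 M') e).card = t := by
            rw [← hfib _ (hM' heM)]
            congr 1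
            ext x
            simp only [seg, bup, bpi, Finset.mem_filter, zero_add, pow_one]
            constructor
            · rintro ⟨⟨h3, _⟩, h4⟩
              exact ⟨h3, h4⟩
            · rintro ⟨h3, h4⟩
              refine ⟨⟨h3, ?_⟩, h4⟩
              rw [h4.1, h4.2]
              exact heM
          have hsub : (sub (2 ^ K) 0 (bup (2 ^ K) A1 M') e d).card = 1 := by
            rw [Finset.card_eq_one]
            refine ⟨(e.1, 2 ^ K * (e.2 / 2 ^ K) + d), ?_⟩
            ext x
            simp only [sub, bup, bpi, Finset.mem_filter, Finset.mem_singleton, zero_add, pow_one,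
              pow_zero, Nat.div_one]
            constructor
            · rintro ⟨_, h3, h4, h5⟩
              ext
              · exact h3
              · simp only
                rw [← h4, ← h5]
                exact (Nat.div_add_mod x.2 (2 ^ K)).symm
            · rintro rfl
              have hd2 : (2 ^ K * (e.2 / 2 ^ K) + d) / 2 ^ K = e.2 / 2 ^ K := by
                rw [Nat.mul_add_div (by positivity), Nat.div_eq_of_lt hdK, add_zero]
              have hd3 : (2 ^ K * (e.2 / 2 ^ K) + d) % 2 ^ K = d := by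
                rw [Nat.mul_add_mod, Nat.mod_eq_of_lt hdK]
              simp only [hd2, hd3, and_true]
              exact ⟨hin _ (hM' heM) d hd, heM⟩
          rw [hseg, hsub, mul_one, htJ]
        · obtain ⟨h', hh', rfl⟩ := Finset.mem_image.mp hh
          simp only [Nat.succ_ne_zero, if_false] at hd
          exact bunif (2 ^ K) t J A1 M M' hM' hfib h' d e
            (hunif h' hh' (bpi (2 ^ K) e) (Finset.mem_filter.mp he).2 d hd)

end Pool.Agent.PTC
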