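import Mathlib
import Pool.Agent.PTC.Defs

set_option autoImplicit false

namespace Pool.Agent.PTC

/-- A finite forest has a vertex with at most one neighbour. -/
theorem EMB_leaf {V : Type*} [Finite V] [Nonempty V] (G : SimpleGraph V) (h : G.IsAcyclic) :
    ∃ v, ∀ u w, G.Adj v u → G.Adj v w → u = w := by
  classical
  have : Fintype V := Fintype.ofFinite V
  let s : Set ℕ := {n | ∃ (u v : V) (p : G.Walk u v), p.IsPath ∧ p.length = n}
  have hs : s.Nonempty := by
    obtain ⟨v⟩ := ‹Nonempty V›
    exact ⟨0, v, v, SimpleGraph.Walk.nil, SimpleGraph.Walk.IsPath.nil, rfl⟩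
  have hb : BddAbove s := by
    refine ⟨Fintype.card V, ?_⟩
    rintro n ⟨u, v, p, hp, rfl⟩
    exact hp.length_lt.le
  obtain ⟨u, v, p, hp, hn⟩ := Nat.sSup_mem hs hb
  have key : ∀ w, G.Adj u w → w = p.snd := by
    intro w hw
    by_cases hmem : w ∈ p.support
    · exact h.eq_snd_of_adj_start hp hw hmem
    · exfalso
      have hp' : (SimpleGraph.Walk.cons hw.symm p).IsPath :=
        (SimpleGraph.Walk.cons_isPath_iff _ _).2 ⟨hp, hmem⟩
      have h1 : (SimpleGraph.Walk.cons hw.symm p).length ≤ sSup s :=
        le_csSup hb ⟨_, _, _, hp', rfl⟩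
      rw [SimpleGraph.Walk.length_cons, ← hn] at h1
      omega
  exact ⟨u, fun a b ha hb => (key a ha).trans (key b hb).symm⟩

/-- EMB: embedding of a forest by moves along rows and columns. -/
theorem emb (k l : ℕ) (M : Finset (Fin k × Fin l))
    (hM : (SimpleGraph.fromRel (fun x y : Fin k ⊕ Fin l =>
          ∃ i j, x = Sum.inl i ∧ y = Sum.inr j ∧ (i, j) ∈ M)).IsAcyclic)
    (Good : ℕ → ℕ × ℕ → Prop) (hmono : ∀ i e, Good (i + 1) e → Good i e)
    (RC : Fin k → ℕ → Prop) (CC : Fin l → ℕ → Prop)
    (hrow : ∀ i r c, Good (i + 1) (r, c) → ∀ a : Fin k, ∃ r', RC a r' ∧ Good i (r', c))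
    (hcol : ∀ i r c, Good (i + 1) (r, c) → ∀ b : Fin l, ∃ c', CC b c' ∧ Good i (r, c'))
    (e0 : ℕ × ℕ) (he0 : Good (k + l) e0) :
    ∃ (f : Fin k → ℕ) (g : Fin l → ℕ), (∀ a, RC a (f a)) ∧ (∀ b, CC b (g b)) ∧
      ∀ p ∈ M, Good 0 (f p.1, g p.2) := by
  classical
  set G := SimpleGraph.fromRel (fun x y : Fin k ⊕ Fin l =>
          ∃ i j, x = Sum.inl i ∧ y = Sum.inr j ∧ (i, j) ∈ M) with hG
  have hadj : ∀ a b, (a, b) ∈ M → G.Adj (Sum.inl a) (Sum.inr b) := by
    intro a b hab
    rw [hG, SimpleGraph.fromRel_adj]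
    exact ⟨by simp, Or.inl ⟨a, b, rfl, rfl, hab⟩⟩
  have hmono' : ∀ i j e, i ≤ j → Good j e → Good i e := by
    intro i j e hij
    induction j, hij using Nat.le_induction with
    | base => exact id
    | succ j _ ih => exact fun h => ih (hmono j e h)
  have main : ∀ n : ℕ, ∀ S : Finset (Fin k ⊕ Fin l), S.card = n →
      ∃ (x : Fin k ⊕ Fin l → ℕ) (w : Fin k ⊕ Fin l → ℕ × ℕ),
        (∀ v ∈ S, Good (k + l - n) (w v)) ∧
        (∀ a, Sum.inl a ∈ S → (w (Sum.inl a)).1 = x (Sum.inl a) ∧ RC a (x (Sum.inl a))) ∧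
        (∀ b, Sum.inr b ∈ S → (w (Sum.inr b)).2 = x (Sum.inr b) ∧ CC b (x (Sum.inr b))) ∧
        ∀ a b, Sum.inl a ∈ S → Sum.inr b ∈ S → (a, b) ∈ M →
          Good (k + l - n) (x (Sum.inl a), x (Sum.inr b)) := by
    intro n
    induction n with
    | zero =>
      intro S hS
      rw [Finset.card_eq_zero] at hS
      subst hS
      exact ⟨fun _ => 0, fun _ => (0, 0), by simp, by simp, by simp, by simp⟩
    | succ n ih =>
      intro S hS
      have hne : S.Nonempty := by
        rw [← Finset.card_pos]
        omega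
      have hcard : n + 1 ≤ k + l := by
        rw [← hS]
        have h1 := Finset.card_le_univ S
        simpa using h1
      have hne' : Nonempty (S : Set (Fin k ⊕ Fin l)) := by
        obtain ⟨v, hv⟩ := hne
        exact ⟨⟨v, hv⟩⟩
      obtain ⟨⟨v, hv⟩, hleaf⟩ := EMB_leaf (G.induce (S : Set (Fin k ⊕ Fin l)))
        (hM.induce _)
      have hvS : v ∈ S := hv
      have hleaf' : ∀ u w, u ∈ S → w ∈ S → G.Adj v u → G.Adj v w → u = w := by
        intro u w hu hw h1 h2
        have h3 := hleaf ⟨u, hu⟩ ⟨w, hw⟩ h1 h2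
        exact congrArg Subtype.val h3
      obtain ⟨x, w, hx1, hx2, hx3, hx4⟩ := ih (S.erase v) (by
        rw [Finset.card_erase_of_mem hvS, hS, Nat.add_sub_cancel])
      obtain ⟨i, hi⟩ : ∃ i, k + l - n = i + 1 := ⟨k + l - n - 1, by omega⟩
      have hi' : k + l - (n + 1) = i := by omega
      rw [hi] at hx1 hx4
      rw [hi']
      rcases v with a | b
      · -- a row vertex
        obtain ⟨r', c', h1, h2, h3⟩ : ∃ r' c', RC a r' ∧ Good i (r', c') ∧
            ∀ b, Sum.inr b ∈ S → (a, b) ∈ M → c' = x (Sum.inr b) := by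
          by_cases hex : ∃ b, Sum.inr b ∈ S ∧ (a, b) ∈ M
          · obtain ⟨b, hb, hab⟩ := hex
            have hb' : (Sum.inr b : Fin k ⊕ Fin l) ∈ S.erase (Sum.inl a) :=
              Finset.mem_erase.2 ⟨by simp, hb⟩
            have h4 := hx1 _ hb'
            have h5 := hx3 b hb'
            obtain ⟨r', h6, h7⟩ := hrow i (w (Sum.inr b)).1 (w (Sum.inr b)).2 h4 a
            refine ⟨r', (w (Sum.inr b)).2, h6, h7, fun b' hb1 hab' => ?_⟩
            have h8 := hleaf' _ _ hb1 hb (hadj a b' hab') (hadj a b hab)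
            rw [h8]
            exact h5.1
          · obtain ⟨r', h6, h7⟩ := hrow i e0.1 e0.2 (hmono' (i + 1) (k + l) _ (by omega) he0) a
            exact ⟨r', e0.2, h6, h7, fun b hb hab => absurd ⟨b, hb, hab⟩ hex⟩
        refine ⟨Function.update x (Sum.inl a) r', Function.update w (Sum.inl a) (r', c'),
          ?_, ?_, ?_, ?_⟩
        · intro u hu
          by_cases hua : u = Sum.inl a
          · subst hua
            rw [Function.update_self]
            exact h2
          · rw [Function.update_of_ne hua]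
            exact hmono i _ (hx1 u (Finset.mem_erase.2 ⟨hua, hu⟩))
        · intro a' ha'
          by_cases hua : (Sum.inl a' : Fin k ⊕ Fin l) = Sum.inl a
          · have : a' = a := Sum.inl_injective hua
            subst this
            rw [Function.update_self, Function.update_self]
            exact ⟨rfl, h1⟩
          · rw [Function.update_of_ne hua, Function.update_of_ne hua]
            exact hx2 a' (Finset.mem_erase.2 ⟨hua, ha'⟩)
        · intro b hb
          rw [Function.update_of_ne (by simp), Function.update_of_ne (by simp)]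
          exact hx3 b (Finset.mem_erase.2 ⟨by simp, hb⟩)
        · intro a' b ha' hb hab
          rw [Function.update_of_ne (show (Sum.inr b : Fin k ⊕ Fin l) ≠ Sum.inl a by simp)]
          by_cases hua : (Sum.inl a' : Fin k ⊕ Fin l) = Sum.inl a
          · have : a' = a := Sum.inl_injective hua
            subst this
            rw [Function.update_self, ← h3 b hb hab]
            exact h2
          · rw [Function.update_of_ne hua]
            exact hmono i _ (hx4 a' b (Finset.mem_erase.2 ⟨hua, ha'⟩)
              (Finset.mem_erase.2 ⟨by simp, hb⟩) hab)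
      · -- a column vertex
        obtain ⟨r', c', h1, h2, h3⟩ : ∃ r' c', CC b c' ∧ Good i (r', c') ∧
            ∀ a, Sum.inl a ∈ S → (a, b) ∈ M → r' = x (Sum.inl a) := by
          by_cases hex : ∃ a, Sum.inl a ∈ S ∧ (a, b) ∈ M
          · obtain ⟨a, ha, hab⟩ := hex
            have ha' : (Sum.inl a : Fin k ⊕ Fin l) ∈ S.erase (Sum.inr b) :=
              Finset.mem_erase.2 ⟨by simp, ha⟩
            have h4 := hx1 _ ha'
            have h5 := hx2 a ha'
            obtain ⟨c', h6, h7⟩ := hcol i (w (Sum.inl a)).1 (w (Sum.inl a)).2 h4 b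
            refine ⟨(w (Sum.inl a)).1, c', h6, h7, fun a' ha1 hab' => ?_⟩
            have h8 := hleaf' _ _ ha1 ha (hadj a' b hab').symm (hadj a b hab).symm
            rw [h8]
            exact h5.1
          · obtain ⟨c', h6, h7⟩ := hcol i e0.1 e0.2 (hmono' (i + 1) (k + l) _ (by omega) he0) b
            exact ⟨e0.1, c', h6, h7, fun a ha hab => absurd ⟨a, ha, hab⟩ hex⟩
        refine ⟨Function.update x (Sum.inr b) c', Function.update w (Sum.inr b) (r', c'),
          ?_, ?_, ?_, ?_⟩
        · intro u hu
          by_cases hub : u = Sum.inr b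
          · subst hub
            rw [Function.update_self]
            exact h2
          · rw [Function.update_of_ne hub]
            exact hmono i _ (hx1 u (Finset.mem_erase.2 ⟨hub, hu⟩))
        · intro a ha
          rw [Function.update_of_ne (by simp), Function.update_of_ne (by simp)]
          exact hx2 a (Finset.mem_erase.2 ⟨by simp, ha⟩)
        · intro b' hb'
          by_cases hub : (Sum.inr b' : Fin k ⊕ Fin l) = Sum.inr b
          · have : b' = b := Sum.inr_injective hub
            subst this
            rw [Function.update_self, Function.update_self]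
            exact ⟨rfl, h1⟩
          · rw [Function.update_of_ne hub, Function.update_of_ne hub]
            exact hx3 b' (Finset.mem_erase.2 ⟨hub, hb'⟩)
        · intro a b' ha hb' hab
          rw [Function.update_of_ne (show (Sum.inl a : Fin k ⊕ Fin l) ≠ Sum.inr b by simp)]
          by_cases hub : (Sum.inr b' : Fin k ⊕ Fin l) = Sum.inr b
          · have : b' = b := Sum.inr_injective hub
            subst this
            rw [Function.update_self, ← h3 a ha hab]
            exact h2
          · rw [Function.update_of_ne hub]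
            exact hmono i _ (hx4 a b' (Finset.mem_erase.2 ⟨by simp, ha⟩)
              (Finset.mem_erase.2 ⟨hub, hb'⟩) hab)
  obtain ⟨x, w, -, hx2, hx3, hx4⟩ := main (k + l) Finset.univ (by simp)
  refine ⟨fun a => x (Sum.inl a), fun b => x (Sum.inr b), fun a => (hx2 a (Finset.mem_univ _)).2,
    fun b => (hx3 b (Finset.mem_univ _)).2, ?_⟩
  rintro ⟨a, b⟩ hab
  have h1 := hx4 a b (Finset.mem_univ _) (Finset.mem_univ _) hab
  rw [Nat.sub_self] at h1
  exact h1

end Pool.Agent.PTC
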