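import Mathlib
import Pool.Agent.PTC.Defs

set_option autoImplicit false

namespace Pool.Agent.PTC

private theorem NODEK_gibbs_term (g v : ℝ) (hg : 0 ≤ g) (hv : 0 ≤ v) (hgv : 0 < g → 0 < v) :
    g - v ≤ g * Real.log (g / v) := by
  rcases hg.eq_or_lt with h0 | h0
  · rw [← h0]; simp; exact hv
  · have hv' := hgv h0
    have h1 : Real.log (v / g) ≤ v / g - 1 := Real.log_le_sub_one_of_pos (by positivity)
    have h2 : Real.log (g / v) = - Real.log (v / g) := by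
      rw [← Real.log_inv, inv_div]
    rw [h2]
    have h3 : g * (v / g - 1) = v - g := by field_simp
    nlinarith [mul_le_mul_of_nonneg_left h1 hg]

/-- NODEK 1: Gibbs. -/
theorem node_gibbs (S : Finset ℕ) (g w : ℕ → ℝ) (hg : ∀ d ∈ S, 0 ≤ g d) (hw : ∀ d ∈ S, 0 ≤ w d)
    (hw1 : ∑ d ∈ S, w d ≤ 1) (hgw : ∀ d ∈ S, 0 < g d → 0 < w d) :
    0 ≤ ∑ d ∈ S, g d * Real.log (g d / ((∑ x ∈ S, g x) * w d)) := by
  set G := ∑ x ∈ S, g x with hG
  have hG0 : 0 ≤ G := Finset.sum_nonneg hg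
  have h1 : ∑ d ∈ S, (g d - G * w d) ≤ ∑ d ∈ S, g d * Real.log (g d / (G * w d)) := by
    apply Finset.sum_le_sum
    intro d hd
    apply NODEK_gibbs_term _ _ (hg d hd) (mul_nonneg hG0 (hw d hd))
    intro hgd
    have : 0 < G := lt_of_lt_of_le hgd (Finset.single_le_sum hg hd)
    exact mul_pos this (hgw d hd hgd)
  have h2 : ∑ d ∈ S, (g d - G * w d) = G - G * ∑ d ∈ S, w d := by
    rw [Finset.sum_sub_distrib, ← Finset.mul_sum]
  rw [h2] at h1
  nlinarith [mul_le_mul_of_nonneg_left hw1 hG0]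

private theorem NODEK_hell_term (g v : ℝ) (hg : 0 ≤ g) (hv : 0 ≤ v) (hgv : 0 < g → 0 < v) :
    (Real.sqrt g - Real.sqrt v) ^ 2 + (g - v) ≤ g * Real.log (g / v) := by
  have e : (Real.sqrt g - Real.sqrt v) ^ 2 + (g - v) = 2 * g - 2 * (Real.sqrt g * Real.sqrt v) := by
    have h1 := Real.sq_sqrt hg
    have h2 := Real.sq_sqrt hv
    nlinarith
  rw [e]
  rcases hg.eq_or_lt with h0 | h0
  · rw [← h0]; simp
  · have hv' := hgv h0
    have hsg : 0 < Real.sqrt g := Real.sqrt_pos.2 h0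
    have hsv : 0 < Real.sqrt v := Real.sqrt_pos.2 hv'
    have h1 : Real.log (Real.sqrt v / Real.sqrt g) ≤ Real.sqrt v / Real.sqrt g - 1 :=
      Real.log_le_sub_one_of_pos (by positivity)
    have h2 : Real.log (g / v) = - (2 * Real.log (Real.sqrt v / Real.sqrt g)) := by
      have h3 : g / v = ((Real.sqrt v / Real.sqrt g) ^ 2)⁻¹ := by
        rw [div_pow, Real.sq_sqrt hg, Real.sq_sqrt hv, inv_div]
      rw [h3, Real.log_inv, Real.log_pow]
      push_cast; ring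
    rw [h2]
    have h3 : g * (Real.sqrt v / Real.sqrt g - 1) = Real.sqrt g * Real.sqrt v - g := by
      have h4 : g = Real.sqrt g * Real.sqrt g := (Real.mul_self_sqrt hg).symm
      have h5 : g * (Real.sqrt v / Real.sqrt g) = Real.sqrt g * Real.sqrt v := by
        nth_rewrite 1 [h4]
        field_simp
      rw [mul_sub, h5, mul_one]
    nlinarith [mul_le_mul_of_nonneg_left h1 hg]

/-- NODEK 2: Gibbs with the Hellinger lower bound for one cell. -/
theorem node_hell (S : Finset ℕ) (g w : ℕ → ℝ) (hg : ∀ d ∈ S, 0 ≤ g d) (hw : ∀ d ∈ S, 0 ≤ w d)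
    (hw1 : ∑ d ∈ S, w d = 1) (hgw : ∀ d ∈ S, 0 < g d → 0 < w d) (d₀ : ℕ) (hd : d₀ ∈ S) :
    (Real.sqrt (g d₀) - Real.sqrt ((∑ x ∈ S, g x) * w d₀)) ^ 2 ≤
      ∑ d ∈ S, g d * Real.log (g d / ((∑ x ∈ S, g x) * w d)) := by
  set G := ∑ x ∈ S, g x with hG
  have hG0 : 0 ≤ G := Finset.sum_nonneg hg
  have h1 : ∑ d ∈ S, ((Real.sqrt (g d) - Real.sqrt (G * w d)) ^ 2 + (g d - G * w d)) ≤
      ∑ d ∈ S, g d * Real.log (g d / (G * w d)) := by
    apply Finset.sum_le_sum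
    intro d hd
    apply NODEK_hell_term _ _ (hg d hd) (mul_nonneg hG0 (hw d hd))
    intro hgd
    have : 0 < G := lt_of_lt_of_le hgd (Finset.single_le_sum hg hd)
    exact mul_pos this (hgw d hd hgd)
  have h2 : ∑ d ∈ S, ((Real.sqrt (g d) - Real.sqrt (G * w d)) ^ 2 + (g d - G * w d)) =
      ∑ d ∈ S, (Real.sqrt (g d) - Real.sqrt (G * w d)) ^ 2 := by
    rw [Finset.sum_add_distrib, Finset.sum_sub_distrib, ← Finset.mul_sum, hw1]
    ring
  rw [h2] at h1
  refine le_trans ?_ h1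
  exact Finset.single_le_sum
    (f := fun d => (Real.sqrt (g d) - Real.sqrt (G * w d)) ^ 2) (fun d _ => sq_nonneg _) hd

end Pool.Agent.PTC
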