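import Mathlib
import Pool.Agent.PTC.Defs
import Pool.Agent.PTC.NODEK

set_option autoImplicit false

namespace Pool.Agent.PTC

theorem kl_mem_seg {B h : ℕ} {A : Finset (ℕ × ℕ)} {e x : ℕ × ℕ} :
    x ∈ seg B h A e ↔ x ∈ A ∧ x.1 = e.1 ∧ x.2 / B ^ h = e.2 / B ^ h := by
  simp [seg]

theorem kl_mem_sub {B h : ℕ} {A : Finset (ℕ × ℕ)} {e x : ℕ × ℕ} {d : ℕ} :
    x ∈ sub B h A e d ↔ x ∈ A ∧ x.1 = e.1 ∧ x.2 / B ^ (h + 1) = e.2 / B ^ (h + 1) ∧
      (x.2 / B ^ h) % B = d := by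
  simp [sub]

theorem kl_seg_self {B h : ℕ} {A : Finset (ℕ × ℕ)} {e : ℕ × ℕ} (he : e ∈ A) : e ∈ seg B h A e :=
  kl_mem_seg.2 ⟨he, rfl, rfl⟩

theorem kl_seg_pos {B h : ℕ} {A : Finset (ℕ × ℕ)} {e : ℕ × ℕ} (he : e ∈ A) :
    (0 : ℝ) < (seg B h A e).card := by
  exact_mod_cast Finset.card_pos.2 ⟨e, kl_seg_self he⟩

theorem kl_seg_congr {B h : ℕ} (A : Finset (ℕ × ℕ)) {e x : ℕ × ℕ} (h1 : x.1 = e.1)
    (h2 : x.2 / B ^ h = e.2 / B ^ h) : seg B h A x = seg B h A e := by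
  ext y
  rw [kl_mem_seg, kl_mem_seg, h1, h2]

theorem kl_div (B h n : ℕ) : n / B ^ (h + 1) = n / B ^ h / B := by
  rw [pow_succ, Nat.div_div_eq_div_mul]

theorem kl_seg_sub {B h : ℕ} (A : Finset (ℕ × ℕ)) {e x : ℕ × ℕ} (h1 : x.1 = e.1)
    (h2 : x.2 / B ^ (h + 1) = e.2 / B ^ (h + 1)) :
    seg B h A x = sub B h A e ((x.2 / B ^ h) % B) := by
  ext y
  rw [kl_mem_seg, kl_mem_sub, h1, ← h2, kl_div, kl_div]
  refine and_congr_right fun _ => and_congr_right fun _ => ?_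
  constructor
  · intro h
    rw [h]
    exact ⟨rfl, rfl⟩
  · rintro ⟨h3, h4⟩
    rw [← Nat.div_add_mod (y.2 / B ^ h) B, h3, h4, Nat.div_add_mod]

/-- Summation over nodes. -/
theorem kl_nodes (B h : ℕ) (G : Finset (ℕ × ℕ)) (f : ℕ × ℕ → ℝ) (Q : ℕ × ℕ → Prop)
    [DecidablePred Q] (c : ℝ)
    (hQ : ∀ e ∈ G, ∀ e' ∈ seg B h G e, (Q e' ↔ Q e))
    (hn : ∀ e ∈ G, 0 ≤ ∑ x ∈ seg B h G e, f x)
    (hq : ∀ e ∈ G, Q e → c * (seg B h G e).card ≤ ∑ x ∈ seg B h G e, f x) :
    c * (G.filter Q).card ≤ ∑ e ∈ G, f e := by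
  have h1 : c * ((G.filter Q).card : ℝ) = ∑ e ∈ G, if Q e then c else 0 := by
    rw [Finset.sum_ite, Finset.sum_const, Finset.sum_const_zero, add_zero, nsmul_eq_mul, mul_comm]
  rw [h1, ← sub_nonneg, ← Finset.sum_sub_distrib,
    ← Finset.sum_fiberwise_of_maps_to (t := G.image (fun e => (e.1, e.2 / B ^ h)))
      (g := fun e => (e.1, e.2 / B ^ h)) (fun e he => Finset.mem_image_of_mem _ he)]
  apply Finset.sum_nonneg
  intro k hk
  obtain ⟨e, he, rfl⟩ := Finset.mem_image.1 hk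
  have h2 : (G.filter fun x => (x.1, x.2 / B ^ h) = (e.1, e.2 / B ^ h)) = seg B h G e := by
    ext x
    rw [kl_mem_seg, Finset.mem_filter, Prod.mk.injEq]
  rw [h2, Finset.sum_sub_distrib, sub_nonneg]
  by_cases hQe : Q e
  · refine le_trans (le_of_eq ?_) (hq e he hQe)
    rw [Finset.sum_congr rfl (g := fun _ => c) (fun x hx => by
      rw [if_pos ((hQ e he x hx).2 hQe)]), Finset.sum_const, nsmul_eq_mul, mul_comm]
  · refine le_trans (le_of_eq ?_) (hn e he)
    apply Finset.sum_eq_zero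
    intro x hx
    rw [if_neg (fun hc => hQe ((hQ e he x hx).1 hc))]

/-- The relative density. -/
noncomputable def kl_u (B : ℕ) (A G : Finset (ℕ × ℕ)) (h : ℕ) (e : ℕ × ℕ) : ℝ :=
  (seg B h G e).card / (seg B h A e).card

theorem kl_u_pos {B : ℕ} {A G : Finset (ℕ × ℕ)} (hGA : G ⊆ A) (h : ℕ) {e : ℕ × ℕ} (he : e ∈ G) :
    0 < kl_u B A G h e :=
  div_pos (kl_seg_pos he) (kl_seg_pos (hGA he))

theorem kl_sum_sub (B h : ℕ) (hB : 0 < B) (A : Finset (ℕ × ℕ)) (e : ℕ × ℕ) (F : ℕ × ℕ → ℝ) :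
    ∑ x ∈ seg B (h + 1) A e, F x = ∑ d ∈ Finset.range B, ∑ x ∈ sub B h A e d, F x := by
  rw [← Finset.sum_fiberwise_of_maps_to (t := Finset.range B) (g := fun x => (x.2 / B ^ h) % B)
    (fun x _ => Finset.mem_range.2 (Nat.mod_lt _ hB))]
  refine Finset.sum_congr rfl (fun d _ => Finset.sum_congr ?_ (fun _ _ => rfl))
  ext x
  rw [Finset.mem_filter, kl_mem_seg, kl_mem_sub]
  tauto

theorem kl_card_sub (B h : ℕ) (hB : 0 < B) (A : Finset (ℕ × ℕ)) (e : ℕ × ℕ) :
    ((seg B (h + 1) A e).card : ℝ) = ∑ d ∈ Finset.range B, ((sub B h A e d).card : ℝ) := by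
  have := kl_sum_sub B h hB A e (fun _ => 1)
  simpa using this

/-- The sum of the differences of logarithms over one node. -/
theorem kl_node (B h : ℕ) (hB : 0 < B) (A G : Finset (ℕ × ℕ)) (hGA : G ⊆ A) (e : ℕ × ℕ)
    (he : e ∈ G) :
    ∑ x ∈ seg B (h + 1) G e, (Real.log (kl_u B A G h x) - Real.log (kl_u B A G (h + 1) x)) =
      ∑ d ∈ Finset.range B, ((sub B h G e d).card : ℝ) *
        Real.log (((sub B h G e d).card : ℝ) / ((∑ x ∈ Finset.range B, ((sub B h G e x).card : ℝ)) *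
          (((sub B h A e d).card : ℝ) / (seg B (h + 1) A e).card))) := by
  rw [kl_sum_sub B h hB, ← kl_card_sub B h hB G e]
  refine Finset.sum_congr rfl (fun d _ => ?_)
  rw [← nsmul_eq_mul, ← Finset.sum_const]
  refine Finset.sum_congr rfl (fun x hx => ?_)
  obtain ⟨h0, h1, h2, h3⟩ := kl_mem_sub.1 hx
  rw [← Real.log_div (kl_u_pos hGA h h0).ne' (kl_u_pos hGA (h + 1) h0).ne']
  congr 1
  have p1 := kl_seg_pos (B := B) (h := h) h0
  have p2 := kl_seg_pos (B := B) (h := h) (hGA h0)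
  have p3 := kl_seg_pos (B := B) (h := h + 1) he
  have p4 := kl_seg_pos (B := B) (h := h + 1) (hGA he)
  unfold kl_u
  rw [kl_seg_congr G h1 h2, kl_seg_congr A h1 h2]
  rw [kl_seg_sub G h1 h2, h3] at p1 ⊢
  rw [kl_seg_sub A h1 h2, h3] at p2 ⊢
  field_simp

theorem kl_inv_sum (B q : ℕ) (A G : Finset (ℕ × ℕ)) (hGA : G ⊆ A) :
    ∑ e ∈ G, (kl_u B A G q e)⁻¹ ≤ A.card := by
  rw [← Finset.sum_fiberwise_of_maps_to (t := G.image (fun e => (e.1, e.2 / B ^ q)))
      (g := fun e => (e.1, e.2 / B ^ q)) (fun e he => Finset.mem_image_of_mem _ he)]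
  have h1 : ∀ k ∈ G.image (fun e => (e.1, e.2 / B ^ q)),
      ∑ x ∈ G with (x.1, x.2 / B ^ q) = k, (kl_u B A G q x)⁻¹ =
        ((A.filter (fun x => (x.1, x.2 / B ^ q) = k)).card : ℝ) := by
    intro k hk
    obtain ⟨e, he, rfl⟩ := Finset.mem_image.1 hk
    have h2 : ∀ A' : Finset (ℕ × ℕ), (A'.filter fun x => (x.1, x.2 / B ^ q) = (e.1, e.2 / B ^ q)) =
        seg B q A' e := by
      intro A'
      ext x
      rw [kl_mem_seg, Finset.mem_filter, Prod.mk.injEq]
    rw [h2, h2]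
    have h3 : ∀ x ∈ seg B q G e, (kl_u B A G q x)⁻¹ =
        ((seg B q A e).card : ℝ) / (seg B q G e).card := by
      intro x hx
      obtain ⟨_, h4, h5⟩ := kl_mem_seg.1 hx
      unfold kl_u
      rw [kl_seg_congr G h4 h5, kl_seg_congr A h4 h5, inv_div]
    rw [Finset.sum_congr rfl h3, Finset.sum_const, nsmul_eq_mul,
      mul_div_cancel₀ _ (kl_seg_pos he).ne']
  rw [Finset.sum_congr rfl h1]
  have h6 : ((A.card : ℕ) : ℝ) = ∑ k ∈ A.image (fun e => (e.1, e.2 / B ^ q)),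
      ((A.filter (fun x => (x.1, x.2 / B ^ q) = k)).card : ℝ) := by
    exact_mod_cast Finset.card_eq_sum_card_image (fun e : ℕ × ℕ => (e.1, e.2 / B ^ q)) A
  rw [h6]
  exact Finset.sum_le_sum_of_subset_of_nonneg (Finset.image_subset_image hGA)
    (fun _ _ _ => Nat.cast_nonneg _)

theorem kl_top (B q : ℕ) (A G : Finset (ℕ × ℕ)) (hGA : G ⊆ A)
    (θ : ℝ) (hθ : 0 < θ) (hθG : θ * A.card ≤ G.card) :
    ∑ e ∈ G, -Real.log (kl_u B A G q e) ≤ Real.log (1 / θ) * G.card := by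
  have h1 : ∀ e ∈ G, -Real.log (kl_u B A G q e) ≤
      (θ * (kl_u B A G q e)⁻¹ - 1) + Real.log (1 / θ) := by
    intro e he
    have h2 := kl_u_pos (B := B) hGA q he
    have h3 : 0 < θ * (kl_u B A G q e)⁻¹ := by positivity
    have h4 := Real.log_le_sub_one_of_pos h3
    rw [Real.log_mul hθ.ne' (inv_pos.2 h2).ne', Real.log_inv] at h4
    rw [one_div, Real.log_inv]
    linarith
  refine (Finset.sum_le_sum h1).trans ?_
  rw [Finset.sum_add_distrib, Finset.sum_sub_distrib, ← Finset.mul_sum, Finset.sum_const,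
    Finset.sum_const, nsmul_eq_mul, nsmul_eq_mul]
  have h5 := mul_le_mul_of_nonneg_left (kl_inv_sum B q A G hGA) hθ.le
  nlinarith

theorem kl_zero (B : ℕ) (A G : Finset (ℕ × ℕ)) (hGA : G ⊆ A) (e : ℕ × ℕ) (he : e ∈ G) :
    kl_u B A G 0 e = 1 := by
  have h : ∀ A' : Finset (ℕ × ℕ), e ∈ A' → seg B 0 A' e = {e} := by
    intro A' he'
    ext x
    rw [kl_mem_seg, Finset.mem_singleton, pow_zero, Nat.div_one, Nat.div_one]
    constructor
    · rintro ⟨_, h1, h2⟩
      exact Prod.ext h1 h2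
    · rintro rfl
      exact ⟨he', rfl, rfl⟩
  unfold kl_u
  rw [h G he, h A (hGA he)]
  simp

theorem kl_tele (B q : ℕ) (A G : Finset (ℕ × ℕ)) (hGA : G ⊆ A) :
    ∑ h ∈ Finset.range q, ∑ e ∈ G,
      (Real.log (kl_u B A G h e) - Real.log (kl_u B A G (h + 1) e)) =
    ∑ e ∈ G, -Real.log (kl_u B A G q e) := by
  rw [Finset.sum_comm]
  refine Finset.sum_congr rfl (fun e he => ?_)
  rw [Finset.sum_range_sub' (fun h => Real.log (kl_u B A G h e)), kl_zero B A G hGA e he,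
    Real.log_one, zero_sub]

/-- The node sum is nonnegative, and large when the node is not balanced. -/
theorem kl_node_nonneg (B h : ℕ) (hB : 0 < B) (A G : Finset (ℕ × ℕ)) (hGA : G ⊆ A) (e : ℕ × ℕ)
    (he : e ∈ G) :
    0 ≤ ∑ x ∈ seg B (h + 1) G e,
      (Real.log (kl_u B A G h x) - Real.log (kl_u B A G (h + 1) x)) := by
  rw [kl_node B h hB A G hGA e he]
  have p4 := kl_seg_pos (B := B) (h := h + 1) (hGA he)
  refine node_gibbs (Finset.range B) (fun d => ((sub B h G e d).card : ℝ))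
    (fun d => ((sub B h A e d).card : ℝ) / (seg B (h + 1) A e).card)
    (fun _ _ => Nat.cast_nonneg _) (fun _ _ => by positivity) ?_ ?_
  · rw [← Finset.sum_div, ← kl_card_sub B h hB A e, div_self p4.ne']
  · intro d _ hd
    refine div_pos (lt_of_lt_of_le hd ?_) p4
    exact_mod_cast Finset.card_le_card (fun x hx => by
      obtain ⟨h0, h1⟩ := kl_mem_sub.1 hx
      exact kl_mem_sub.2 ⟨hGA h0, h1⟩)

theorem kl_node_unbal (B h J : ℕ) (hB : 0 < B) (hJ : 1 ≤ J) (A G : Finset (ℕ × ℕ)) (hGA : G ⊆ A)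
    (e : ℕ × ℕ) (he : e ∈ G) (d : ℕ)
    (hbal : J * (sub B h A e d).card = (seg B (h + 1) A e).card)
    (hd : 4 * J * (sub B h G e d).card < (seg B (h + 1) G e).card) :
    1 / (4 * (J : ℝ)) * (seg B (h + 1) G e).card ≤ ∑ x ∈ seg B (h + 1) G e,
      (Real.log (kl_u B A G h x) - Real.log (kl_u B A G (h + 1) x)) := by
  rw [kl_node B h hB A G hGA e he]
  have p3 := kl_seg_pos (B := B) (h := h + 1) he
  have p4 := kl_seg_pos (B := B) (h := h + 1) (hGA he)
  have hJ' : (0 : ℝ) < J := by exact_mod_cast hJ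
  have hdB : d ∈ Finset.range B := by
    have h1 : 0 < (sub B h A e d).card := by
      rcases Nat.eq_zero_or_pos (sub B h A e d).card with h0 | h0
      · rw [h0, mul_zero] at hbal
        rw [← hbal] at p4
        simp at p4
      · exact h0
    obtain ⟨x, hx⟩ := Finset.card_pos.1 h1
    rw [← (kl_mem_sub.1 hx).2.2.2]
    exact Finset.mem_range.2 (Nat.mod_lt _ hB)
  have hw : ((sub B h A e d).card : ℝ) / (seg B (h + 1) A e).card = 1 / J := by
    have : ((J * (sub B h A e d).card : ℕ) : ℝ) = (seg B (h + 1) A e).card := by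
      exact_mod_cast congrArg Nat.cast hbal
    rw [div_eq_div_iff p4.ne' hJ'.ne', one_mul, ← this]
    push_cast
    ring
  refine le_trans ?_ (node_hell (Finset.range B) (fun d => ((sub B h G e d).card : ℝ))
    (fun d => ((sub B h A e d).card : ℝ) / (seg B (h + 1) A e).card)
    (fun _ _ => Nat.cast_nonneg _) (fun _ _ => by positivity) ?_ ?_ d hdB)
  · rw [← kl_card_sub B h hB G e, hw]
    set N : ℝ := ((seg B (h + 1) G e).card : ℝ) with hN
    have hd' : 4 * (J : ℝ) * ((sub B h G e d).card : ℝ) < N := by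
      rw [hN]
      exact_mod_cast hd
    have h5 : ((sub B h G e d).card : ℝ) ≤ N * (1 / J) / 4 := by
      rw [mul_one_div, div_div, le_div_iff₀ (by positivity)]
      nlinarith
    have h6 : Real.sqrt ((sub B h G e d).card : ℝ) ≤ Real.sqrt (N * (1 / J)) / 2 := by
      have h7 : Real.sqrt (N * (1 / J)) / 2 = Real.sqrt (N * (1 / J) / 4) := by
        rw [Real.sqrt_div (by positivity), show (4 : ℝ) = 2 ^ 2 by norm_num,
          Real.sqrt_sq (by norm_num)]
      rw [h7]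
      exact Real.sqrt_le_sqrt h5
    have h8 : 0 ≤ Real.sqrt (N * (1 / J)) := Real.sqrt_nonneg _
    have h9 : Real.sqrt (N * (1 / J)) ^ 2 = N * (1 / J) := Real.sq_sqrt (by positivity)
    have h10 : 0 ≤ Real.sqrt ((sub B h G e d).card : ℝ) := Real.sqrt_nonneg _
    have h11 : 1 / (4 * (J : ℝ)) * N = Real.sqrt (N * (1 / J)) ^ 2 / 4 := by
      rw [h9]
      field_simp
    rw [h11]
    nlinarith
  · rw [← Finset.sum_div, ← kl_card_sub B h hB A e, div_self p4.ne']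
  · intro d _ hd
    refine div_pos (lt_of_lt_of_le hd ?_) p4
    exact_mod_cast Finset.card_le_card (fun x hx => by
      obtain ⟨h0, h1⟩ := kl_mem_sub.1 hx
      exact kl_mem_sub.2 ⟨hGA h0, h1⟩)

/-- KL: a set of density `θ` in a set which is uniform at the levels of `T` is balanced at most of them. -/
theorem klstep (B J q : ℕ) (hJ : 1 ≤ J) (A G : Finset (ℕ × ℕ)) (hGA : G ⊆ A)
    (h2 : ∀ e ∈ A, e.2 < B ^ q) (T : Finset ℕ) (hT : T ⊆ Finset.range q) (ι : ℕ → Finset ℕ)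
    (hι : ∀ h ∈ T, (ι h).card = J)
    (hbal : ∀ h ∈ T, ∀ e ∈ A, ∀ d ∈ ι h,
      J * (sub B h A e d).card = (seg B (h + 1) A e).card)
    (θ : ℝ) (hθ : 0 < θ) (hθG : θ * A.card ≤ G.card) :
    ∑ h ∈ T, ((G.filter (fun e => ∃ d ∈ ι h,
        4 * J * (sub B h G e d).card < (seg B (h + 1) G e).card)).card : ℝ)
      ≤ 4 * J * Real.log (1 / θ) * G.card := by
  have hJ' : (0 : ℝ) < J := by exact_mod_cast hJ
  rcases G.eq_empty_or_nonempty with rfl | ⟨e₀, he₀⟩
  · simp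
  have htop := kl_top B q A G hGA θ hθ hθG
  rw [← kl_tele B q A G hGA] at htop
  rcases Nat.eq_zero_or_pos q with rfl | hq
  · have hT0 : T = ∅ := Finset.subset_empty.1 (by simpa using hT)
    subst hT0
    simp only [Finset.range_zero, Finset.sum_empty] at htop ⊢
    nlinarith
  have hB : 0 < B := by
    rcases Nat.eq_zero_or_pos B with rfl | hB
    · have := h2 e₀ (hGA he₀)
      rw [zero_pow hq.ne'] at this
      omega
    · exact hB
  have hnn : ∀ h : ℕ, 0 ≤ ∑ e ∈ G,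
      (Real.log (kl_u B A G h e) - Real.log (kl_u B A G (h + 1) e)) := by
    intro h
    have := kl_nodes B (h + 1) G
      (fun e => Real.log (kl_u B A G h e) - Real.log (kl_u B A G (h + 1) e)) (fun _ => False) 0
      (fun _ _ _ _ => Iff.rfl) (fun e he => kl_node_nonneg B h hB A G hGA e he)
      (fun _ _ hf => hf.elim)
    simpa using this
  have hun : ∀ h ∈ T, ((G.filter (fun e => ∃ d ∈ ι h,
        4 * J * (sub B h G e d).card < (seg B (h + 1) G e).card)).card : ℝ) ≤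
      4 * J * ∑ e ∈ G, (Real.log (kl_u B A G h e) - Real.log (kl_u B A G (h + 1) e)) := by
    intro h hh
    have := kl_nodes B (h + 1) G
      (fun e => Real.log (kl_u B A G h e) - Real.log (kl_u B A G (h + 1) e))
      (fun e => ∃ d ∈ ι h, 4 * J * (sub B h G e d).card < (seg B (h + 1) G e).card)
      (1 / (4 * (J : ℝ))) ?_ (fun e he => kl_node_nonneg B h hB A G hGA e he) ?_
    · rw [one_div, inv_mul_le_iff₀ (by positivity)] at this
      exact this
    · intro e _ x hx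
      obtain ⟨_, h3, h4⟩ := kl_mem_seg.1 hx
      have h5 : ∀ d, sub B h G x d = sub B h G e d := by
        intro d
        ext y
        rw [kl_mem_sub, kl_mem_sub, h3, h4]
      simp only [h5, kl_seg_congr G h3 h4]
    · rintro e he ⟨d, hd, hlt⟩
      exact kl_node_unbal B h J hB hJ A G hGA e he d (hbal h hh e (hGA he) d hd) hlt
  refine (Finset.sum_le_sum hun).trans ?_
  rw [← Finset.mul_sum, mul_assoc (4 * (J : ℝ))]
  refine mul_le_mul_of_nonneg_left ?_ (by positivity)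
  exact (Finset.sum_le_sum_of_subset_of_nonneg hT (fun h _ _ => hnn h)).trans htop

end Pool.Agent.PTC
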