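import Mathlib
import Pool.Agent.PTC.Defs

set_option autoImplicit false

namespace Pool.Agent.PTC

private theorem PEEL_cnt {α X : Type} [DecidableEq α] [DecidableEq X] (G Bi : Finset α)
    (φ : α → X) (κ : ℝ) (hκ : 0 < κ) :
    ((G.filter (fun e => κ / 2 * ((G.filter (fun x => φ x = φ e)).card : ℝ) ≤
      ((Bi.filter (fun x => φ x = φ e)).card : ℝ))).card : ℝ) ≤ 2 / κ * Bi.card := by
  classical
  set Z := G.filter (fun e => κ / 2 * ((G.filter (fun x => φ x = φ e)).card : ℝ) ≤
      ((Bi.filter (fun x => φ x = φ e)).card : ℝ)) with hZ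
  have h1 : (Z.card : ℝ) = ∑ y ∈ Z.image φ, ((Z.filter (fun x => φ x = y)).card : ℝ) := by
    rw [Finset.card_eq_sum_card_image φ Z]
    push_cast
    rfl
  have h2 : ∀ y ∈ Z.image φ, ((Z.filter (fun x => φ x = y)).card : ℝ) ≤
      2 / κ * ((Bi.filter (fun x => φ x = y)).card : ℝ) := by
    intro y hy
    obtain ⟨e, he, rfl⟩ := Finset.mem_image.1 hy
    have he' := (Finset.mem_filter.1 he).2
    have h3 : ((Z.filter (fun x => φ x = φ e)).card : ℝ) ≤
        ((G.filter (fun x => φ x = φ e)).card : ℝ) := by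
      have : (Z.filter (fun x => φ x = φ e)).card ≤ (G.filter (fun x => φ x = φ e)).card :=
        Finset.card_le_card (Finset.filter_subset_filter _ (Finset.filter_subset _ _))
      exact_mod_cast this
    have h4 : ((G.filter (fun x => φ x = φ e)).card : ℝ) ≤
        2 / κ * ((Bi.filter (fun x => φ x = φ e)).card : ℝ) := by
      rw [div_mul_eq_mul_div, le_div_iff₀ hκ]
      linarith
    exact h3.trans h4
  have h5 : ∑ y ∈ Z.image φ, ((Bi.filter (fun x => φ x = y)).card : ℝ) ≤ Bi.card := by
    have : ∑ y ∈ Z.image φ, (Bi.filter (fun x => φ x = y)).card ≤ Bi.card := by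
      rw [Finset.sum_card_fiberwise_eq_card_filter]
      exact Finset.card_filter_le _ _
    exact_mod_cast this
  rw [h1]
  refine (Finset.sum_le_sum h2).trans ?_
  rw [← Finset.mul_sum]
  exact mul_le_mul_of_nonneg_left h5 (by positivity)

/-- PEEL. -/
theorem peel {α X Y : Type} [DecidableEq α] [DecidableEq X] [DecidableEq Y] (G : Finset α)
    (φ : α → X) (ψ : α → Y) (κ : ℝ) (hκ : 0 < κ) (H : ℕ) (B0 : Finset α) (hB0 : B0 ⊆ G)
    (hlt : (B0.card : ℝ) * (1 + 4 / κ) ^ H < G.card) :
    ∃ Bs : ℕ → Finset α, Bs 0 = B0 ∧ (∀ i, Bs i ⊆ Bs (i + 1)) ∧ (∀ i, Bs i ⊆ G) ∧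
      (∃ e ∈ G, e ∉ Bs H) ∧
      ∀ i, ∀ e ∈ G, e ∉ Bs (i + 1) →
        (((Bs i).filter (fun x => φ x = φ e)).card : ℝ) < κ / 2 * (G.filter (fun x => φ x = φ e)).card ∧
        (((Bs i).filter (fun x => ψ x = ψ e)).card : ℝ) < κ / 2 * (G.filter (fun x => ψ x = ψ e)).card := by
  classical
  let step : Finset α → Finset α := fun Bi =>
    Bi ∪ (G.filter (fun e => κ / 2 * ((G.filter (fun x => φ x = φ e)).card : ℝ) ≤
      ((Bi.filter (fun x => φ x = φ e)).card : ℝ)) ∪
      G.filter (fun e => κ / 2 * ((G.filter (fun x => ψ x = ψ e)).card : ℝ) ≤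
      ((Bi.filter (fun x => ψ x = ψ e)).card : ℝ)))
  let Bs : ℕ → Finset α := fun i => step^[i] B0
  have hsucc : ∀ i, Bs (i + 1) = step (Bs i) := fun i => Function.iterate_succ_apply' step i B0
  have hsub : ∀ i, Bs i ⊆ G := by
    intro i
    induction i with
    | zero => exact hB0
    | succ i ih =>
      rw [hsucc]
      exact Finset.union_subset ih (Finset.union_subset (Finset.filter_subset _ _)
        (Finset.filter_subset _ _))
  have hcard : ∀ i, ((Bs i).card : ℝ) ≤ B0.card * (1 + 4 / κ) ^ i := by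
    intro i
    induction i with
    | zero => simp [Bs]
    | succ i ih =>
      rw [hsucc]
      have h1 : ((step (Bs i)).card : ℝ) ≤ (Bs i).card + (2 / κ * (Bs i).card +
          2 / κ * (Bs i).card) := by
        have hu : ((step (Bs i)).card : ℝ) ≤ (Bs i).card +
            (((G.filter (fun e => κ / 2 * ((G.filter (fun x => φ x = φ e)).card : ℝ) ≤
              (((Bs i).filter (fun x => φ x = φ e)).card : ℝ))).card : ℝ) +
            ((G.filter (fun e => κ / 2 * ((G.filter (fun x => ψ x = ψ e)).card : ℝ) ≤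
              (((Bs i).filter (fun x => ψ x = ψ e)).card : ℝ))).card : ℝ)) := by
          have := (Finset.card_union_le (Bs i) _).trans (Nat.add_le_add_left
            (Finset.card_union_le (G.filter (fun e => κ / 2 *
              ((G.filter (fun x => φ x = φ e)).card : ℝ) ≤
              (((Bs i).filter (fun x => φ x = φ e)).card : ℝ)))
              (G.filter (fun e => κ / 2 * ((G.filter (fun x => ψ x = ψ e)).card : ℝ) ≤
              (((Bs i).filter (fun x => ψ x = ψ e)).card : ℝ)))) (Bs i).card)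
          exact_mod_cast this
        refine hu.trans ?_
        gcongr
        · exact PEEL_cnt G (Bs i) φ κ hκ
        · exact PEEL_cnt G (Bs i) ψ κ hκ
      refine h1.trans ?_
      have h2 : ((Bs i).card : ℝ) + (2 / κ * (Bs i).card + 2 / κ * (Bs i).card) =
          (Bs i).card * (1 + 4 / κ) := by ring
      rw [h2, pow_succ, ← mul_assoc]
      exact mul_le_mul_of_nonneg_right ih (by positivity)
  refine ⟨Bs, rfl, ?_, hsub, ?_, ?_⟩
  · intro i
    rw [hsucc]
    exact Finset.subset_union_left
  · by_contra hcon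
    push Not at hcon
    have : G ⊆ Bs H := fun e he => hcon e he
    have h1 : (G.card : ℝ) ≤ (Bs H).card := by exact_mod_cast Finset.card_le_card this
    linarith [hcard H]
  · intro i e he hne
    rw [hsucc] at hne
    simp only [step, Finset.mem_union, Finset.mem_filter, not_or, not_and, not_le] at hne
    exact ⟨hne.2.1 he, hne.2.2 he⟩

end Pool.Agent.PTC
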