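import Mathlib
import Pool.Agent.PTC.Defs
import Pool.Agent.PTC.KL
import Pool.Agent.PTC.PEEL
import Pool.Agent.PTC.EMB

set_option autoImplicit false

namespace Pool.Agent.PTC

open Finset

private theorem core_swap_card (G : Finset (ℕ × ℕ)) (p : ℕ × ℕ → Prop) [DecidablePred p]
    (p' : ℕ × ℕ → Prop) [DecidablePred p'] (h : ∀ x : ℕ × ℕ, p' x ↔ p (x.2, x.1)) :
    ((G.image Prod.swap).filter p).card = (G.filter p').card := by
  rw [Finset.filter_image, Finset.card_image_of_injective _ Prod.swap_injective]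
  congr 1
  apply Finset.filter_congr
  intro x _
  rw [h]
  rfl

/-- Strict monotonicity from digits. -/
private theorem core_mono (B h R : ℕ) {k J : ℕ} (hk : k ≤ J) (s : Finset ℕ) (hs : s.card = J)
    (f : Fin k → ℕ) (hf : ∀ a, f a / B ^ (h + 1) = R)
    (hd : ∀ a, (f a / B ^ h) % B = s.orderEmbOfFin hs (Fin.castLE hk a)) : StrictMono f := by
  intro a b hab
  by_contra hcon
  push Not at hcon
  have h1 : f b / B ^ h ≤ f a / B ^ h := Nat.div_le_div_right hcon
  have h2 : (f a / B ^ h) % B < (f b / B ^ h) % B := by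
    rw [hd, hd]
    apply (s.orderEmbOfFin hs).strictMono
    exact hab
  have h3 : f a / B ^ h / B = f b / B ^ h / B := by
    rw [Nat.div_div_eq_div_mul, Nat.div_div_eq_div_mul, ← pow_succ, hf, hf]
  have h4 := Nat.div_add_mod (f a / B ^ h) B
  have h5 := Nat.div_add_mod (f b / B ^ h) B
  rw [h3] at h4
  omega

theorem core (k l : ℕ) (M : Finset (Fin k × Fin l))
    (hM : (SimpleGraph.fromRel (fun x y : Fin k ⊕ Fin l =>
          ∃ i j, x = Sum.inl i ∧ y = Sum.inr j ∧ (i, j) ∈ M)).IsAcyclic)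
    (J : ℕ) (hk : k ≤ J) (hl : l ≤ J) (hJ : 1 ≤ J) (B q : ℕ) (A : Finset (ℕ × ℕ))
    (h2 : ∀ e ∈ A, e.2 < B ^ q) (T : Finset ℕ) (hT : T ⊆ Finset.range q) (ι : ℕ → Finset ℕ)
    (hι : ∀ h ∈ T, (ι h).card = J)
    (hbal : ∀ h ∈ T, ∀ e ∈ A, ∀ d ∈ ι h,
      J * (sub B h A e d).card = (seg B (h + 1) A e).card)
    (Br τ R : ℕ) (hR : 1 ≤ R) (ιr : Finset ℕ) (hιr : ιr.card = J) (G : Finset (ℕ × ℕ))
    (hGA : ∀ e ∈ G, (e.2, e.1) ∈ A)
    (hseg : ∀ e ∈ G, ∀ d ∈ ιr, (seg Br (τ + 1) G e).card ≤ R * (sub Br τ G e d).card)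
    (θ : ℝ) (hθ : 0 < θ) (hθG : θ * A.card ≤ G.card) (hGne : G.Nonempty)
    (hm : 4 * J * Real.log (1 / θ) * (1 + 16 * J * R) ^ (k + l) < T.card) :
    ∃ (f : Fin k → ℕ) (g : Fin l → ℕ), StrictMono f ∧ StrictMono g ∧
      (∀ a, ∃ c, (f a, c) ∈ G) ∧ (∀ b, ∃ r, (r, g b) ∈ G) ∧ ∀ p ∈ M, (f p.1, g p.2) ∈ G := by
  classical
  set G' : Finset (ℕ × ℕ) := G.image Prod.swap with hG'
  have hG'A : G' ⊆ A := by
    intro x hx
    rw [hG', Finset.mem_image] at hx
    obtain ⟨y, hy, rfl⟩ := hx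
    exact hGA y hy
  have hG'c : G'.card = G.card := Finset.card_image_of_injective _ Prod.swap_injective
  have hkl := klstep B J q hJ A G' hG'A h2 T hT ι hι hbal θ hθ (by rw [hG'c]; exact hθG)
  rw [hG'c] at hkl
  have hGpos : (0 : ℝ) < G.card := by exact_mod_cast hGne.card_pos
  have hJ1 : (1 : ℝ) ≤ J := by exact_mod_cast hJ
  have hR1 : (1 : ℝ) ≤ R := by exact_mod_cast hR
  have hJR : (1 : ℝ) ≤ J * R := by nlinarith
  have hP : (0 : ℝ) < (1 + 16 * J * R) ^ (k + l) := by positivity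
  -- a level with few unbalanced elements
  obtain ⟨h, hhT, hh⟩ : ∃ h ∈ T, ((G'.filter (fun e => ∃ d ∈ ι h,
        4 * J * (sub B h G' e d).card < (seg B (h + 1) G' e).card)).card : ℝ) *
        (1 + 16 * J * R) ^ (k + l) < G.card := by
    by_contra hcon
    push Not at hcon
    have h3 := Finset.sum_le_sum hcon
    rw [Finset.sum_const, nsmul_eq_mul, ← Finset.sum_mul] at h3
    have h4 := mul_le_mul_of_nonneg_right hkl hP.le
    have h5 := mul_lt_mul_of_pos_right hm hGpos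
    nlinarith
  set B0 : Finset (ℕ × ℕ) := G.filter (fun e => ∃ d ∈ ι h,
        4 * J * (sub B h G' (e.2, e.1) d).card < (seg B (h + 1) G' (e.2, e.1)).card) with hB0
  have hB0c : B0.card = (G'.filter (fun e => ∃ d ∈ ι h,
        4 * J * (sub B h G' e d).card < (seg B (h + 1) G' e).card)).card := by
    symm
    rw [hB0]
    apply core_swap_card
    intro x
    rfl
  rw [← hB0c] at hh
  obtain ⟨Bs, hBs0, hBsm, hBsG, ⟨e0, he0G, he0B⟩, hBsp⟩ := peel G
    (fun e => ((e.1, e.2 / Br ^ (τ + 1)) : ℕ × ℕ)) (fun e => ((e.2, e.1 / B ^ (h + 1)) : ℕ × ℕ))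
    (1 / (4 * J * R)) (by positivity) (k + l) B0 (Finset.filter_subset _ _) (by
      have : (1 + 4 / (1 / (4 * (J : ℝ) * R))) = 1 + 16 * J * R := by
        field_simp
        ring
      rw [this]
      exact hh)
  have hBsmono : ∀ i j, i ≤ j → Bs i ⊆ Bs j := fun i j hij => monotone_nat_of_le_succ hBsm hij
  -- the row cells and the column cells
  obtain ⟨f, g, hf, hg, hfg⟩ := emb k l M hM
    (fun i e => e ∈ G ∧ e ∉ Bs i ∧ e.1 / B ^ (h + 1) = e0.1 / B ^ (h + 1) ∧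
      e.2 / Br ^ (τ + 1) = e0.2 / Br ^ (τ + 1))
    (by
      rintro i e ⟨h1, h3, h4⟩
      exact ⟨h1, fun h5 => h3 (hBsm i h5), h4⟩)
    (fun a r => r / B ^ (h + 1) = e0.1 / B ^ (h + 1) ∧
      (r / B ^ h) % B = (ι h).orderEmbOfFin (hι h hhT) (Fin.castLE hk a) ∧ ∃ c, (r, c) ∈ G)
    (fun b c => c / Br ^ (τ + 1) = e0.2 / Br ^ (τ + 1) ∧
      (c / Br ^ τ) % Br = ιr.orderEmbOfFin hιr (Fin.castLE hl b) ∧ ∃ r, (r, c) ∈ G)
    (by
      rintro i r c ⟨hG1, hB1, hr1, hc1⟩ a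
      -- move along the column `c`
      have hpe := (hBsp i (r, c) hG1 hB1).2
      set d := (ι h).orderEmbOfFin (hι h hhT) (Fin.castLE hk a) with hd
      have hdι : d ∈ ι h := Finset.orderEmbOfFin_mem _ _ _
      have hnb : (r, c) ∉ B0 := by
        intro hc
        apply hB1
        apply hBsmono 0 (i + 1) (Nat.zero_le _)
        rw [hBs0]
        exact hc
      have hbal2 : (seg B (h + 1) G' (c, r)).card ≤ 4 * J * (sub B h G' (c, r) d).card := by
        by_contra hcon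
        push Not at hcon
        apply hnb
        rw [hB0, Finset.mem_filter]
        exact ⟨hG1, d, hdι, hcon⟩
      have hs1 : (seg B (h + 1) G' (c, r)).card = (G.filter (fun x => ((x.2, x.1 / B ^ (h + 1)) : ℕ × ℕ) = (c, r / B ^ (h + 1)))).card := by
        apply core_swap_card
        intro x
        simp [Prod.ext_iff]
      have hs2 : (sub B h G' (c, r) d).card = (G.filter (fun x => x.2 = c ∧ x.1 / B ^ (h + 1) = r / B ^ (h + 1) ∧ (x.1 / B ^ h) % B = d)).card := by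
        apply core_swap_card
        intro x
        rfl
      rw [hs1, hs2] at hbal2
      have hpos : 0 < (G.filter (fun x => ((x.2, x.1 / B ^ (h + 1)) : ℕ × ℕ) = (c, r / B ^ (h + 1)))).card := by
        apply Finset.card_pos.mpr
        exact ⟨(r, c), Finset.mem_filter.mpr ⟨hG1, rfl⟩⟩
      -- there are elements of the cell outside `Bs i`
      have hlt : ((Bs i).filter (fun x => ((x.2, x.1 / B ^ (h + 1)) : ℕ × ℕ) = (c, r / B ^ (h + 1)))).card < (G.filter (fun x => x.2 = c ∧ x.1 / B ^ (h + 1) = r / B ^ (h + 1) ∧ (x.1 / B ^ h) % B = d)).card := by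
        have h5 : ((G.filter (fun x => ((x.2, x.1 / B ^ (h + 1)) : ℕ × ℕ) = (c, r / B ^ (h + 1)))).card : ℝ) ≤ 4 * J * (G.filter (fun x => x.2 = c ∧ x.1 / B ^ (h + 1) = r / B ^ (h + 1) ∧ (x.1 / B ^ h) % B = d)).card := by
          exact_mod_cast hbal2
        have h6 : (1 / (4 * (J : ℝ) * R) / 2) * (4 * J) ≤ 1 := by
          have : (1 / (4 * (J : ℝ) * R) / 2) * (4 * J) = 1 / (2 * R) := by
            field_simp
          rw [this, div_le_one (by positivity)]
          linarith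
        have h7 : (0 : ℝ) ≤ (G.filter (fun x => x.2 = c ∧ x.1 / B ^ (h + 1) = r / B ^ (h + 1) ∧ (x.1 / B ^ h) % B = d)).card := by positivity
        have h8 : (0 : ℝ) < 1 / (4 * (J : ℝ) * R) / 2 := by positivity
        have h9 := mul_le_mul_of_nonneg_left h5 h8.le
        have h10 := mul_le_mul_of_nonneg_right h6 h7
        have : (((Bs i).filter (fun x => ((x.2, x.1 / B ^ (h + 1)) : ℕ × ℕ) = (c, r / B ^ (h + 1)))).card : ℝ) < (G.filter (fun x => x.2 = c ∧ x.1 / B ^ (h + 1) = r / B ^ (h + 1) ∧ (x.1 / B ^ h) % B = d)).card := by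
          linarith
        exact_mod_cast this
      obtain ⟨x, hx1, hx2⟩ : ∃ x ∈ G.filter (fun x => x.2 = c ∧ x.1 / B ^ (h + 1) = r / B ^ (h + 1) ∧ (x.1 / B ^ h) % B = d), x ∉ (Bs i).filter (fun x => ((x.2, x.1 / B ^ (h + 1)) : ℕ × ℕ) = (c, r / B ^ (h + 1))) := by
        by_contra hcon
        push Not at hcon
        exact absurd (Finset.card_le_card hcon) (not_le.mpr hlt)
      rw [Finset.mem_filter] at hx1
      obtain ⟨hxG, hxc, hxr, hxd⟩ := hx1
      have hx : x = (x.1, c) := by rw [← hxc]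
      refine ⟨x.1, ⟨by rw [hxr]; exact hr1, hxd, c, by rw [← hx]; exact hxG⟩, by rw [← hx]; exact hxG, ?_, by rw [show (x.1, c).1 = x.1 from rfl, hxr]; exact hr1, hc1⟩
      rw [← hx]
      intro hcon
      apply hx2
      rw [Finset.mem_filter]
      refine ⟨hcon, ?_⟩
      rw [hxc, hxr])
    (by
      rintro i r c ⟨hG1, hB1, hr1, hc1⟩ b
      -- move along the row `r`
      have hpe := (hBsp i (r, c) hG1 hB1).1
      set d := ιr.orderEmbOfFin hιr (Fin.castLE hl b) with hd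
      have hdι : d ∈ ιr := Finset.orderEmbOfFin_mem _ _ _
      have hs := hseg (r, c) hG1 d hdι
      have hs1 : (seg Br (τ + 1) G (r, c)).card = (G.filter (fun x => ((x.1, x.2 / Br ^ (τ + 1)) : ℕ × ℕ) = (r, c / Br ^ (τ + 1)))).card := by
        unfold seg
        congr 1
        apply Finset.filter_congr
        intro x _
        simp [Prod.ext_iff]
      rw [hs1] at hs
      unfold sub at hs
      have hpos : 0 < (G.filter (fun x => ((x.1, x.2 / Br ^ (τ + 1)) : ℕ × ℕ) = (r, c / Br ^ (τ + 1)))).card := by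
        apply Finset.card_pos.mpr
        exact ⟨(r, c), Finset.mem_filter.mpr ⟨hG1, rfl⟩⟩
      have hlt : ((Bs i).filter (fun x => ((x.1, x.2 / Br ^ (τ + 1)) : ℕ × ℕ) = (r, c / Br ^ (τ + 1)))).card < (G.filter (fun x => x.1 = (r, c).1 ∧ x.2 / Br ^ (τ + 1) = (r, c).2 / Br ^ (τ + 1) ∧ (x.2 / Br ^ τ) % Br = d)).card := by
        have h5 : ((G.filter (fun x => ((x.1, x.2 / Br ^ (τ + 1)) : ℕ × ℕ) = (r, c / Br ^ (τ + 1)))).card : ℝ) ≤ R * (G.filter (fun x => x.1 = (r, c).1 ∧ x.2 / Br ^ (τ + 1) = (r, c).2 / Br ^ (τ + 1) ∧ (x.2 / Br ^ τ) % Br = d)).card := by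
          exact_mod_cast hs
        have h6 : (1 / (4 * (J : ℝ) * R) / 2) * R ≤ 1 := by
          have : (1 / (4 * (J : ℝ) * R) / 2) * R = 1 / (8 * J) := by
            field_simp
            ring
          rw [this, div_le_one (by positivity)]
          linarith
        have h7 : (0 : ℝ) ≤ (G.filter (fun x => x.1 = (r, c).1 ∧ x.2 / Br ^ (τ + 1) = (r, c).2 / Br ^ (τ + 1) ∧ (x.2 / Br ^ τ) % Br = d)).card := by positivity
        have h8 : (0 : ℝ) < 1 / (4 * (J : ℝ) * R) / 2 := by positivity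
        have h9 := mul_le_mul_of_nonneg_left h5 h8.le
        have h10 := mul_le_mul_of_nonneg_right h6 h7
        have : (((Bs i).filter (fun x => ((x.1, x.2 / Br ^ (τ + 1)) : ℕ × ℕ) = (r, c / Br ^ (τ + 1)))).card : ℝ) < (G.filter (fun x => x.1 = (r, c).1 ∧ x.2 / Br ^ (τ + 1) = (r, c).2 / Br ^ (τ + 1) ∧ (x.2 / Br ^ τ) % Br = d)).card := by
          linarith
        exact_mod_cast this
      obtain ⟨x, hx1, hx2⟩ : ∃ x ∈ G.filter (fun x => x.1 = (r, c).1 ∧ x.2 / Br ^ (τ + 1) = (r, c).2 / Br ^ (τ + 1) ∧ (x.2 / Br ^ τ) % Br = d), x ∉ (Bs i).filter (fun x => ((x.1, x.2 / Br ^ (τ + 1)) : ℕ × ℕ) = (r, c / Br ^ (τ + 1))) := by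
        by_contra hcon
        push Not at hcon
        exact absurd (Finset.card_le_card hcon) (not_le.mpr hlt)
      rw [Finset.mem_filter] at hx1
      obtain ⟨hxG, hxc, hxr, hxd⟩ := hx1
      have hxc' : x.1 = r := hxc
      have hxr' : x.2 / Br ^ (τ + 1) = c / Br ^ (τ + 1) := hxr
      have hx : x = (r, x.2) := by rw [← hxc']
      refine ⟨x.2, ⟨by rw [hxr']; exact hc1, hxd, r, by rw [← hx]; exact hxG⟩, by rw [← hx]; exact hxG, ?_, hr1, by rw [show (r, x.2).2 = x.2 from rfl, hxr']; exact hc1⟩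
      rw [← hx]
      intro hcon
      apply hx2
      rw [Finset.mem_filter]
      refine ⟨hcon, ?_⟩
      rw [hxc', hxr'])
    e0 ⟨he0G, he0B, rfl, rfl⟩
  refine ⟨f, g, ?_, ?_, fun a => (hf a).2.2, fun b => (hg b).2.2, fun p hp => (hfg p hp).1⟩
  · exact core_mono B h _ hk (ι h) (hι h hhT) f (fun a => (hf a).1) (fun a => (hf a).2.1)
  · exact core_mono Br τ _ hl ιr hιr g (fun b => (hg b).1) (fun b => (hg b).2.1)

end Pool.Agent.PTC
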