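import Mathlib
import Pool.Agent.PTC.Defs

set_option autoImplicit false

namespace Pool.Agent.PTC

/-- one cell compared with a weight -/
private theorem NODER_term (G g w : ℝ) (hg : 0 ≤ g) (hG : 0 < G) (hw : 0 < w) :
    g * Real.log (G / g) ≤ (G * w - g) + g * Real.log (1 / w) := by
  rcases hg.eq_or_lt with h0 | h0
  · rw [← h0]
    simp only [zero_mul, sub_zero, add_zero]
    positivity
  · have h1 : Real.log (G * w / g) ≤ G * w / g - 1 := Real.log_le_sub_one_of_pos (by positivity)
    have h2 : Real.log (G / g) = Real.log (G * w / g) + Real.log (1 / w) := by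
      rw [← Real.log_mul (by positivity) (by positivity)]
      congr 1
      field_simp
    rw [h2, mul_add]
    have h3 : g * (G * w / g - 1) = G * w - g := by field_simp
    nlinarith [mul_le_mul_of_nonneg_left h1 hg]

/-- comparison with weights -/
private theorem NODER_sum (S : Finset ℕ) (g w : ℕ → ℝ) (hg : ∀ d ∈ S, 0 ≤ g d)
    (hw : ∀ d ∈ S, 0 < w d) (hw1 : ∑ d ∈ S, w d ≤ 1) :
    ∑ d ∈ S, g d * Real.log ((∑ x ∈ S, g x) / g d) ≤ ∑ d ∈ S, g d * Real.log (1 / w d) := by
  set G := ∑ x ∈ S, g x with hG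
  have hG0 : 0 ≤ G := Finset.sum_nonneg hg
  rcases hG0.eq_or_lt with h0 | h0
  · have hz : ∀ d ∈ S, g d = 0 := by
      intro d hd
      have := (Finset.sum_eq_zero_iff_of_nonneg hg).1 h0.symm
      exact this d hd
    rw [Finset.sum_eq_zero (fun d hd => by rw [hz d hd, zero_mul]),
      Finset.sum_eq_zero (fun d hd => by rw [hz d hd, zero_mul])]
  · have h1 : ∑ d ∈ S, g d * Real.log (G / g d) ≤
        ∑ d ∈ S, ((G * w d - g d) + g d * Real.log (1 / w d)) :=
      Finset.sum_le_sum fun d hd => NODER_term G (g d) (w d) (hg d hd) h0 (hw d hd)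
    rw [Finset.sum_add_distrib, Finset.sum_sub_distrib, ← Finset.mul_sum] at h1
    nlinarith [mul_le_mul_of_nonneg_left hw1 hG0]

/-- NODER 1: an entropy is at most the logarithm of the number of cells. -/
theorem node_all (S : Finset ℕ) (B : ℕ) (hS : S.card ≤ B) (g : ℕ → ℝ) (hg : ∀ d ∈ S, 0 ≤ g d) :
    ∑ d ∈ S, g d * Real.log ((∑ x ∈ S, g x) / g d) ≤ (∑ x ∈ S, g x) * Real.log B := by
  rcases Finset.eq_empty_or_nonempty S with rfl | hne
  · simp
  · have hB : 0 < B := lt_of_lt_of_le (Finset.card_pos.2 hne) hS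
    have hB' : (0 : ℝ) < B := by exact_mod_cast hB
    have h := NODER_sum S g (fun _ => 1 / (B : ℝ)) hg (fun _ _ => by positivity) (by
      rw [Finset.sum_const, nsmul_eq_mul, mul_one_div, div_le_one hB']
      exact_mod_cast hS)
    refine h.trans (le_of_eq ?_)
    simp only [one_div, inv_inv]
    rw [Finset.sum_mul]

/-- NODER 2: if fewer than `J` of at most `2 ^ K` cells are heavy, the entropy is at most `log (4 J)`. -/
theorem node_few (K J : ℕ) (S : Finset ℕ) (hS : S.card ≤ 2 ^ K) (g : ℕ → ℝ) (hg : ∀ d ∈ S, 0 ≤ g d)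
    (hfew : (S.filter (fun d => ∑ x ∈ S, g x ≤ 2 ^ (2 * K) * g d)).card < J) :
    ∑ d ∈ S, g d * Real.log ((∑ x ∈ S, g x) / g d) ≤ (∑ x ∈ S, g x) * Real.log (4 * J) := by
  classical
  set G := ∑ x ∈ S, g x with hG
  have hG0 : 0 ≤ G := Finset.sum_nonneg hg
  have hJ : 0 < J := by omega
  have hJ' : (1 : ℝ) ≤ J := by exact_mod_cast hJ
  set P : ℕ → Prop := fun d => G ≤ 2 ^ (2 * K) * g d with hP
  set w : ℕ → ℝ := fun d => if P d then 1 / (2 * (J : ℝ)) else 1 / (2 * 2 ^ K) with hw
  have hwpos : ∀ d, 0 < w d := by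
    intro d
    simp only [hw]
    split_ifs <;> positivity
  have hw1 : ∑ d ∈ S, w d ≤ 1 := by
    simp only [hw]
    rw [Finset.sum_ite, Finset.sum_const, Finset.sum_const, nsmul_eq_mul, nsmul_eq_mul]
    have c1 : ((S.filter P).card : ℝ) ≤ J := by
      have : (S.filter P).card ≤ J := hfew.le
      exact_mod_cast this
    have c2 : ((S.filter (fun d => ¬ P d)).card : ℝ) ≤ 2 ^ K := by
      have : (S.filter (fun d => ¬ P d)).card ≤ S.card := Finset.card_filter_le _ _
      exact_mod_cast this.trans hS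
    have e1 : ((S.filter P).card : ℝ) * (1 / (2 * (J : ℝ))) ≤ 1 / 2 := by
      rw [mul_one_div, div_le_div_iff₀ (by positivity) (by norm_num)]
      linarith
    have e2 : ((S.filter (fun d => ¬ P d)).card : ℝ) * (1 / (2 * 2 ^ K)) ≤ 1 / 2 := by
      rw [mul_one_div, div_le_div_iff₀ (by positivity) (by norm_num)]
      linarith
    linarith
  have h1 := NODER_sum S g w hg (fun d _ => hwpos d) hw1
  refine h1.trans ?_
  -- bound each term
  have hK : (K + 1 : ℝ) ≤ 2 ^ K := by
    have : K + 1 ≤ 2 ^ K := Nat.lt_two_pow_self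
    exact_mod_cast this
  have hlog2 : 0 < Real.log 2 := Real.log_pos (by norm_num)
  have hterm : ∀ d ∈ S, g d * Real.log (1 / w d) ≤
      g d * Real.log (2 * J) + G / (2 ^ K * 2 ^ K) * (2 ^ K * Real.log 2) := by
    intro d hd
    have hnn : 0 ≤ G / (2 ^ K * 2 ^ K) * (2 ^ K * Real.log 2) := by positivity
    simp only [hw]
    split_ifs with hp
    · rw [one_div_one_div]
      linarith
    · rw [one_div_one_div]
      have hlt : 2 ^ (2 * K) * g d < G := not_le.1 hp
      have hgd : g d ≤ G / (2 ^ K * 2 ^ K) := by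
        rw [le_div_iff₀ (by positivity)]
        have : (2 : ℝ) ^ (2 * K) = 2 ^ K * 2 ^ K := by rw [two_mul, pow_add]
        rw [this] at hlt
        linarith
      have hl : Real.log (2 * 2 ^ K) ≤ 2 ^ K * Real.log 2 := by
        rw [Real.log_mul (by norm_num) (by positivity), Real.log_pow]
        nlinarith
      have hl0 : 0 ≤ Real.log (2 * 2 ^ K) := by
        apply Real.log_nonneg
        have : (1 : ℝ) ≤ 2 ^ K := one_le_pow₀ (by norm_num)
        linarith
      have h2J : 0 ≤ g d * Real.log (2 * J) :=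
        mul_nonneg (hg d hd) (Real.log_nonneg (by linarith))
      have : g d * Real.log (2 * 2 ^ K) ≤ G / (2 ^ K * 2 ^ K) * (2 ^ K * Real.log 2) :=
        mul_le_mul hgd hl hl0 (by positivity)
      linarith
  refine (Finset.sum_le_sum hterm).trans ?_
  rw [Finset.sum_add_distrib, ← Finset.sum_mul, Finset.sum_const, nsmul_eq_mul]
  have hcard : (S.card : ℝ) ≤ 2 ^ K := by exact_mod_cast hS
  have e3 : (S.card : ℝ) * (G / (2 ^ K * 2 ^ K) * (2 ^ K * Real.log 2)) ≤ G * Real.log 2 := by
    have e4 : (G / (2 ^ K * 2 ^ K) * (2 ^ K * Real.log 2)) = G * Real.log 2 / 2 ^ K := by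
      field_simp
    rw [e4, mul_div_assoc', div_le_iff₀ (by positivity)]
    have : 0 ≤ G * Real.log 2 := by positivity
    nlinarith
  have e5 : Real.log (4 * J) = Real.log (2 * J) + Real.log 2 := by
    rw [← Real.log_mul (by positivity) (by norm_num)]
    congr 1; ring
  rw [e5, mul_add]
  linarith

end Pool.Agent.PTC
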