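import Mathlib
import Pool.Agent.PTC.Defs
import Pool.Agent.PTC.NODER

set_option autoImplicit false

namespace Pool.Agent.PTC

/-- Same block of height `t` means same block of height `t + 1` and same digit. -/
private lemma ROW_digit (B t x y : ℕ) :
    x / B ^ t = y / B ^ t ↔ x / B ^ (t + 1) = y / B ^ (t + 1) ∧ (x / B ^ t) % B = (y / B ^ t) % B := by
  have hx : x / B ^ (t + 1) = (x / B ^ t) / B := by rw [pow_succ, Nat.div_div_eq_div_mul]
  have hy : y / B ^ (t + 1) = (y / B ^ t) / B := by rw [pow_succ, Nat.div_div_eq_div_mul]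
  rw [hx, hy]
  constructor
  · intro h
    rw [h]; exact ⟨rfl, rfl⟩
  · rintro ⟨h1, h2⟩
    rw [← Nat.div_add_mod (x / B ^ t) B, ← Nat.div_add_mod (y / B ^ t) B, h1, h2]

/-- Telescoping lower bound for the entropy of a whole line. -/
private lemma ROW_top (q n B : ℕ) (A : Finset (ℕ × ℕ)) (h1 : ∀ e ∈ A, e.1 < n)
    (h2 : ∀ e ∈ A, e.2 < B ^ q) (hne : A.Nonempty) :
    (A.card : ℝ) * Real.log (A.card / n) ≤ ∑ e ∈ A, Real.log ((seg B q A e).card) := by
  classical
  have hcard : 0 < (A.card : ℝ) := by exact_mod_cast hne.card_pos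
  have hn : 0 < (n : ℝ) := by
    obtain ⟨e, he⟩ := hne
    exact_mod_cast lt_of_le_of_lt (Nat.zero_le _) (h1 e he)
  have hseg : ∀ e ∈ A, 0 < ((seg B q A e).card : ℝ) := by
    intro e he
    have : (seg B q A e).Nonempty := ⟨e, by simp [seg, he]⟩
    exact_mod_cast this.card_pos
  have key : ∀ e ∈ A, Real.log (A.card / n) ≤ Real.log ((seg B q A e).card) +
      ((A.card : ℝ) / n * (1 / ((seg B q A e).card : ℝ)) - 1) := by
    intro e he
    have hs := hseg e he
    have hx : 0 < ((A.card : ℝ) / n) * (1 / ((seg B q A e).card : ℝ)) := by positivity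
    have := Real.log_le_sub_one_of_pos hx
    rw [Real.log_mul (by positivity) (by positivity), Real.log_div one_ne_zero hs.ne', Real.log_one] at this
    linarith
  have hsum := Finset.sum_le_sum key
  rw [Finset.sum_const, nsmul_eq_mul, Finset.sum_add_distrib, Finset.sum_sub_distrib, ← Finset.mul_sum,
    Finset.sum_const, nsmul_eq_mul, mul_one] at hsum
  have hinv : ∑ e ∈ A, (1 / ((seg B q A e).card : ℝ)) ≤ n := by
    have hmaps : ∀ e ∈ A, e.1 ∈ Finset.range n := fun e he => Finset.mem_range.2 (h1 e he)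
    rw [← Finset.sum_fiberwise_of_maps_to hmaps]
    have : ∀ c ∈ Finset.range n, ∑ e ∈ A.filter (fun x => x.1 = c), (1 / ((seg B q A e).card : ℝ)) ≤ 1 := by
      intro c hc
      have hh : ∀ e ∈ A.filter (fun x => x.1 = c), (1 / ((seg B q A e).card : ℝ)) =
          1 / ((A.filter (fun x => x.1 = c)).card : ℝ) := by
        intro e he
        rw [Finset.mem_filter] at he
        have : seg B q A e = A.filter (fun x => x.1 = c) := by
          unfold seg
          apply Finset.filter_congr
          intro x hx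
          rw [he.2, Nat.div_eq_of_lt (h2 x hx), Nat.div_eq_of_lt (h2 e he.1)]
          simp
        rw [this]
      rw [Finset.sum_congr rfl hh, Finset.sum_const, nsmul_eq_mul]
      by_cases h0 : ((A.filter (fun x => x.1 = c)).card : ℝ) = 0
      · rw [h0]; simp
      · rw [mul_one_div_cancel h0]
    calc _ ≤ ∑ c ∈ Finset.range n, (1 : ℝ) := Finset.sum_le_sum this
      _ = n := by simp
  have h3 : (A.card : ℝ) / n * ∑ e ∈ A, (1 / ((seg B q A e).card : ℝ)) ≤ A.card := by
    calc _ ≤ (A.card : ℝ) / n * n := mul_le_mul_of_nonneg_left hinv (by positivity)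
      _ = A.card := by field_simp
  linarith

/-- ROW: a positive proportion of the elements is spread over `J` common cells at some level. -/
theorem rowstep (K J q n : ℕ) (hJ : 1 ≤ J) (hq : 0 < q) (η : ℝ) (hη : 0 < η)
    (hK : Real.log (4 * J) ≤ η * (K * Real.log 2)) (A : Finset (ℕ × ℕ)) (h1 : ∀ e ∈ A, e.1 < n)
    (h2 : ∀ e ∈ A, e.2 < (2 ^ K) ^ q) (hne : A.Nonempty)
    (hbig : 2 * η * (q * (K * Real.log 2)) ≤ Real.log (A.card / n)) :
    ∃ (τ : ℕ) (ι : Finset ℕ) (G : Finset (ℕ × ℕ)), G ⊆ A ∧ ι.card = J ∧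
      ι ⊆ Finset.range (2 ^ K) ∧
      η * A.card ≤ 2 ^ (2 ^ K) * 2 ^ (2 * K) * G.card ∧
      ∀ e ∈ G, ∀ d ∈ ι, (seg (2 ^ K) (τ + 1) G e).card ≤ 2 ^ (2 * K) * (sub (2 ^ K) τ G e d).card := by
  classical
  set B : ℕ := 2 ^ K with hB
  have hBpos : 0 < B := by positivity
  have hcard : 0 < (A.card : ℝ) := by exact_mod_cast hne.card_pos
  -- K is positive
  have hKL : 0 < (K : ℝ) * Real.log 2 := by
    have h4 : 0 < Real.log (4 * J) := by
      apply Real.log_pos
      have : (1 : ℝ) ≤ J := by exact_mod_cast hJ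
      linarith
    by_contra hcon
    have : η * ((K : ℝ) * Real.log 2) ≤ 0 := mul_nonpos_of_nonneg_of_nonpos hη.le (not_lt.1 hcon)
    linarith
  have hlogB : Real.log (B : ℝ) = K * Real.log 2 := by
    rw [hB]; push_cast; rw [Real.log_pow]
  -- telescoping
  set L : ℕ → ℝ := fun h => ∑ e ∈ A, Real.log ((seg B h A e).card) with hL
  have hL0 : L 0 = 0 := by
    rw [hL]
    apply Finset.sum_eq_zero
    intro e he
    have : seg B 0 A e = {e} := by
      ext x
      simp only [seg, Finset.mem_filter, Finset.mem_singleton, pow_zero, Nat.div_one]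
      constructor
      · rintro ⟨_, h, h'⟩; exact Prod.ext h h'
      · rintro rfl; exact ⟨he, rfl, rfl⟩
    rw [this]; simp
  have hLq := ROW_top q n B A h1 h2 hne
  have htel : ∑ h ∈ Finset.range q, (L (h + 1) - L h) = L q := by
    rw [Finset.sum_range_sub, hL0, sub_zero]
  have hpig : ∃ τ ∈ Finset.range q, 2 * η * (K * Real.log 2) * A.card ≤ L (τ + 1) - L τ := by
    apply Finset.exists_le_of_sum_le (Finset.nonempty_range_iff.2 hq.ne')
    rw [htel, Finset.sum_const, Finset.card_range, nsmul_eq_mul]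
    calc (q : ℝ) * (2 * η * (K * Real.log 2) * A.card)
        = (A.card : ℝ) * (2 * η * (q * (K * Real.log 2))) := by ring
      _ ≤ (A.card : ℝ) * Real.log (A.card / n) := mul_le_mul_of_nonneg_left hbig hcard.le
      _ ≤ L q := hLq
  obtain ⟨τ, -, hτ⟩ := hpig
  -- nodes
  set key : ℕ × ℕ → ℕ × ℕ := fun x => (x.1, x.2 / B ^ (τ + 1)) with hkey
  set dig : ℕ × ℕ → ℕ := fun x => (x.2 / B ^ τ) % B with hdig
  set N : ℕ × ℕ → Finset (ℕ × ℕ) := fun k => A.filter (fun x => key x = k) with hN
  set C : ℕ × ℕ → ℕ → Finset (ℕ × ℕ) := fun k d => (N k).filter (fun x => dig x = d) with hC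
  have hdigB : ∀ x, dig x ∈ Finset.range B := fun x => Finset.mem_range.2 (Nat.mod_lt _ hBpos)
  have hsegS : ∀ e ∈ A, seg B (τ + 1) A e = N (key e) := by
    intro e _
    apply Finset.filter_congr
    intro x _
    simp [hkey, Prod.ext_iff]
  have hseg0 : ∀ e ∈ A, seg B τ A e = C (key e) (dig e) := by
    intro e _
    ext x
    simp only [seg, hC, hN, hkey, hdig, Finset.mem_filter, Prod.mk.injEq]
    rw [ROW_digit B τ x.2 e.2]
    tauto
  have hNsum : ∀ k, ((N k).card : ℝ) = ∑ d ∈ Finset.range B, ((C k d).card : ℝ) := by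
    intro k
    have := Finset.card_eq_sum_card_fiberwise (f := dig) (s := N k) (t := Finset.range B)
      (fun x _ => hdigB x)
    rw [this]; push_cast; rfl
  have hLdiff : L (τ + 1) - L τ = ∑ k ∈ A.image key, ∑ d ∈ Finset.range B,
      ((C k d).card : ℝ) * Real.log ((∑ x ∈ Finset.range B, ((C k x).card : ℝ)) / (C k d).card) := by
    have e1 : L (τ + 1) - L τ = ∑ e ∈ A, Real.log (((N (key e)).card : ℝ) / (C (key e) (dig e)).card) := by
      simp only [hL]
      rw [← Finset.sum_sub_distrib]
      apply Finset.sum_congr rfl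
      intro e he
      rw [hsegS e he, hseg0 e he]
      have hc : (C (key e) (dig e)).Nonempty := ⟨e, by simp [hC, hN, he]⟩
      have hn' : (N (key e)).Nonempty := ⟨e, by simp [hN, he]⟩
      rw [Real.log_div]
      · exact_mod_cast hn'.card_pos.ne'
      · exact_mod_cast hc.card_pos.ne'
    rw [e1, ← Finset.sum_fiberwise_of_maps_to (g := key) (t := A.image key)
      (fun x hx => Finset.mem_image_of_mem key hx)]
    apply Finset.sum_congr rfl
    intro k hk
    rw [← Finset.sum_fiberwise_of_maps_to (g := dig) (t := Finset.range B) (fun x _ => hdigB x)]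
    apply Finset.sum_congr rfl
    intro d hd
    have : ∀ e ∈ (A.filter (fun x => key x = k)).filter (fun x => dig x = d),
        Real.log (((N (key e)).card : ℝ) / (C (key e) (dig e)).card) =
        Real.log ((∑ x ∈ Finset.range B, ((C k x).card : ℝ)) / (C k d).card) := by
      intro e he
      rw [Finset.mem_filter, Finset.mem_filter] at he
      rw [he.1.2, he.2, hNsum k]
    rw [Finset.sum_congr rfl this, Finset.sum_const, nsmul_eq_mul]
  -- heavy digits
  set H : ℕ × ℕ → Finset ℕ := fun k => (Finset.range B).filter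
    (fun d => (∑ x ∈ Finset.range B, ((C k x).card : ℝ)) ≤ 2 ^ (2 * K) * ((C k d).card : ℝ)) with hH
  set Gd : Finset (ℕ × ℕ) := (A.image key).filter (fun k => J ≤ (H k).card) with hGd
  have hAsum : (A.card : ℝ) = ∑ k ∈ A.image key, ((N k).card : ℝ) := by
    have := Finset.card_eq_sum_card_fiberwise (f := key) (s := A) (t := A.image key)
      (fun x hx => Finset.mem_image_of_mem key hx)
    rw [this]; push_cast; rfl
  have hgood : η * A.card ≤ ∑ k ∈ Gd, ((N k).card : ℝ) := by
    have hb : L (τ + 1) - L τ ≤ ∑ k ∈ A.image key, (if J ≤ (H k).card then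
        ((N k).card : ℝ) * (K * Real.log 2) else 0) + ∑ k ∈ A.image key, ((N k).card : ℝ) *
          (η * (K * Real.log 2)) := by
      rw [hLdiff, ← Finset.sum_add_distrib]
      apply Finset.sum_le_sum
      intro k hk
      have hnn : 0 ≤ ((N k).card : ℝ) * (η * (K * Real.log 2)) := by positivity
      split_ifs with hc
      · have := node_all (Finset.range B) B (by simp) (fun d => ((C k d).card : ℝ)) (fun d _ => by positivity)
        rw [← hNsum k, hlogB] at this
        rw [← hNsum k]
        linarith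
      · have := node_few K J (Finset.range B) (by simp [hB]) (fun d => ((C k d).card : ℝ))
          (fun d _ => by positivity) (not_le.1 hc)
        rw [← hNsum k] at this
        rw [← hNsum k]
        have h5 : ((N k).card : ℝ) * Real.log (4 * J) ≤ ((N k).card : ℝ) * (η * (K * Real.log 2)) :=
          mul_le_mul_of_nonneg_left hK (by positivity)
        linarith
    rw [← Finset.sum_filter, ← Finset.sum_mul, ← Finset.sum_mul, ← hAsum] at hb
    have h6 : 2 * η * (K * Real.log 2) * A.card ≤
        (∑ k ∈ Gd, ((N k).card : ℝ)) * (K * Real.log 2) + (A.card : ℝ) * (η * (K * Real.log 2)) :=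
      le_trans hτ hb
    have h7 : (η * A.card) * (K * Real.log 2) ≤ (∑ k ∈ Gd, ((N k).card : ℝ)) * (K * Real.log 2) := by
      nlinarith
    exact le_of_mul_le_mul_right h7 hKL
  -- choose J heavy digits
  have hch : ∀ k, ∃ s : Finset ℕ, s.card = J ∧ s ⊆ Finset.range B ∧ (k ∈ Gd → s ⊆ H k) ∨ ¬ (k ∈ Gd) := by
    intro k
    by_cases hk : k ∈ Gd
    · have : J ≤ (H k).card := (Finset.mem_filter.1 hk).2
      obtain ⟨s, hs, hsc⟩ := Finset.exists_subset_card_eq this
      exact ⟨s, Or.inl ⟨hsc, hs.trans (Finset.filter_subset _ _), fun _ => hs⟩⟩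
    · exact ⟨∅, Or.inr hk⟩
  choose ch hch using hch
  have hch1 : ∀ k ∈ Gd, (ch k).card = J ∧ ch k ⊆ H k := by
    intro k hk
    rcases hch k with h | h
    · exact ⟨h.1, h.2.2 hk⟩
    · exact absurd hk h
  have hGdne : Gd.Nonempty := by
    rw [Finset.nonempty_iff_ne_empty]
    intro h0
    rw [h0, Finset.sum_empty] at hgood
    have : 0 < η * A.card := by positivity
    linarith
  -- popular choice
  have hmaps : ∀ k ∈ Gd, ch k ∈ Gd.image ch := fun k hk => Finset.mem_image_of_mem ch hk
  have hsumch : ∑ k ∈ Gd, ((N k).card : ℝ) =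
      ∑ s ∈ Gd.image ch, ∑ k ∈ Gd.filter (fun k => ch k = s), ((N k).card : ℝ) :=
    (Finset.sum_fiberwise_of_maps_to hmaps _).symm
  have hcardim : ((Gd.image ch).card : ℝ) ≤ 2 ^ B := by
    have : Gd.image ch ⊆ (Finset.range B).powerset := by
      intro s hs
      obtain ⟨k, hk, rfl⟩ := Finset.mem_image.1 hs
      rw [Finset.mem_powerset]
      exact (hch1 k hk).2.trans (Finset.filter_subset _ _)
    have h8 := Finset.card_le_card this
    rw [Finset.card_powerset, Finset.card_range] at h8
    exact_mod_cast h8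
  have hpop : ∃ s ∈ Gd.image ch, η * A.card ≤ 2 ^ B * ∑ k ∈ Gd.filter (fun k => ch k = s), ((N k).card : ℝ) := by
    by_contra hcon
    push Not at hcon
    have h9 : ∑ s ∈ Gd.image ch, (2 : ℝ) ^ B * ∑ k ∈ Gd.filter (fun k => ch k = s), ((N k).card : ℝ) <
        ∑ s ∈ Gd.image ch, η * A.card := Finset.sum_lt_sum_of_nonempty (hGdne.image ch) hcon
    rw [← Finset.mul_sum, ← hsumch, Finset.sum_const, nsmul_eq_mul] at h9
    have h10 : ((Gd.image ch).card : ℝ) * (η * A.card) ≤ 2 ^ B * (η * A.card) :=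
      mul_le_mul_of_nonneg_right hcardim (by positivity)
    have h11 : (2 : ℝ) ^ B * (η * A.card) ≤ 2 ^ B * ∑ k ∈ Gd, ((N k).card : ℝ) :=
      mul_le_mul_of_nonneg_left hgood (by positivity)
    linarith
  obtain ⟨ι, hι, hpop⟩ := hpop
  have hιJ : ι.card = J ∧ ι ⊆ Finset.range B := by
    obtain ⟨k, hk, rfl⟩ := Finset.mem_image.1 hι
    exact ⟨(hch1 k hk).1, (hch1 k hk).2.trans (Finset.filter_subset _ _)⟩
  set G : Finset (ℕ × ℕ) := A.filter (fun x => (key x ∈ Gd ∧ ch (key x) = ι) ∧ dig x ∈ ι) with hG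
  refine ⟨τ, ι, G, Finset.filter_subset _ _, hιJ.1, hιJ.2, ?_, ?_⟩
  · -- counting
    have hcount : ∑ k ∈ Gd.filter (fun k => ch k = ι), ((N k).card : ℝ) ≤ 2 ^ (2 * K) * G.card := by
      have hGsum : (G.card : ℝ) = ∑ k ∈ Gd.filter (fun k => ch k = ι),
          ((G.filter (fun x => key x = k)).card : ℝ) := by
        have := Finset.card_eq_sum_card_fiberwise (f := key) (s := G) (t := Gd.filter (fun k => ch k = ι))
          (fun x hx => by
            have hx' := (Finset.mem_filter.1 hx).2.1
            exact Finset.mem_filter.2 ⟨hx'.1, hx'.2⟩)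
        rw [this]; push_cast; rfl
      rw [hGsum, Finset.mul_sum]
      apply Finset.sum_le_sum
      intro k hk
      rw [Finset.mem_filter] at hk
      -- pick one digit of ι
      have hιne : ι.Nonempty := by
        rw [← Finset.card_pos, hιJ.1]; omega
      obtain ⟨d, hd⟩ := hιne
      have hdH : d ∈ H k := by
        have := (hch1 k hk.1).2
        rw [hk.2] at this
        exact this hd
      have h12 : (∑ x ∈ Finset.range B, ((C k x).card : ℝ)) ≤ 2 ^ (2 * K) * ((C k d).card : ℝ) :=
        (Finset.mem_filter.1 hdH).2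
      rw [← hNsum k] at h12
      have h13 : C k d ⊆ G.filter (fun x => key x = k) := by
        intro x hx
        simp only [hC, hN, Finset.mem_filter] at hx
        simp only [hG, Finset.mem_filter]
        obtain ⟨⟨hxA, hxk⟩, hxd⟩ := hx
        refine ⟨⟨hxA, ⟨?_, ?_⟩, ?_⟩, hxk⟩
        · rw [hxk]; exact hk.1
        · rw [hxk]; exact hk.2
        · rw [hxd]; exact hd
      have h14 : ((C k d).card : ℝ) ≤ ((G.filter (fun x => key x = k)).card : ℝ) := by
        exact_mod_cast Finset.card_le_card h13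
      calc ((N k).card : ℝ) ≤ 2 ^ (2 * K) * ((C k d).card : ℝ) := h12
        _ ≤ _ := mul_le_mul_of_nonneg_left h14 (by positivity)
    calc η * A.card ≤ 2 ^ B * ∑ k ∈ Gd.filter (fun k => ch k = ι), ((N k).card : ℝ) := hpop
      _ ≤ 2 ^ B * (2 ^ (2 * K) * G.card) := mul_le_mul_of_nonneg_left hcount (by positivity)
      _ = 2 ^ B * 2 ^ (2 * K) * G.card := by ring
  · intro e he d hd
    have he' := Finset.mem_filter.1 he
    have hk : key e ∈ Gd := he'.2.1.1
    have hck : ch (key e) = ι := he'.2.1.2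
    have hdH : d ∈ H (key e) := by
      have := (hch1 _ hk).2
      rw [hck] at this
      exact this hd
    have h12 : (∑ x ∈ Finset.range B, ((C (key e) x).card : ℝ)) ≤ 2 ^ (2 * K) * ((C (key e) d).card : ℝ) :=
      (Finset.mem_filter.1 hdH).2
    rw [← hNsum] at h12
    have h13 : (N (key e)).card ≤ 2 ^ (2 * K) * (C (key e) d).card := by exact_mod_cast h12
    have h14 : seg B (τ + 1) G e ⊆ N (key e) := by
      intro x hx
      simp only [seg, hG, Finset.mem_filter] at hx
      simp only [hN, hkey, Finset.mem_filter, Prod.mk.injEq]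
      exact ⟨hx.1.1, hx.2.1, hx.2.2⟩
    have h15 : C (key e) d ⊆ sub B τ G e d := by
      intro x hx
      have hx' : (x ∈ A ∧ key x = key e) ∧ dig x = d := by
        simpa only [hC, hN, Finset.mem_filter] using hx
      have hxG : x ∈ G := by
        rw [hG, Finset.mem_filter]
        refine ⟨hx'.1.1, ⟨?_, ?_⟩, ?_⟩
        · rw [hx'.1.2]; exact hk
        · rw [hx'.1.2]; exact hck
        · rw [hx'.2]; exact hd
      have hkk := hx'.1.2
      simp only [hkey, Prod.mk.injEq] at hkk
      simp only [sub, Finset.mem_filter]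
      exact ⟨hxG, hkk.1, hkk.2, hx'.2⟩
    calc (seg B (τ + 1) G e).card ≤ (N (key e)).card := Finset.card_le_card h14
      _ ≤ 2 ^ (2 * K) * (C (key e) d).card := h13
      _ ≤ 2 ^ (2 * K) * (sub B τ G e d).card := Nat.mul_le_mul_left _ (Finset.card_le_card h15)

end Pool.Agent.PTC
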