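import Mathlib
import Pool.Agent.PTC.Defs
import Pool.Agent.PTC.BUILD
import Pool.Agent.PTC.ROW
import Pool.Agent.PTC.CORE

set_option autoImplicit false

namespace Pool.Agent.PTC

open Finset Filter

/-- A linear function is eventually below an exponential. -/
private theorem fin_exp (J : ℕ) (δ : ℝ) (hδ : 0 < δ) :
    ∃ K : ℕ, 1 ≤ K ∧ (((K + 1) * J : ℕ) : ℝ) ≤ (2 : ℝ) ^ (δ * K) := by
  have ha : 1 < (2 : ℝ) ^ δ := Real.one_lt_rpow (by norm_num) hδ
  have h1 : Tendsto (fun n : ℕ => (n : ℝ) ^ 1 / ((2 : ℝ) ^ δ) ^ n) atTop (nhds 0) :=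
    tendsto_pow_const_div_const_pow_of_one_lt 1 ha
  have h2 := h1.eventually (gt_mem_nhds (show (0 : ℝ) < 1 / (2 * J + 1) by positivity))
  obtain ⟨K, hK1, hK2⟩ := (h2.and (eventually_ge_atTop 1)).exists
  refine ⟨K, hK2, ?_⟩
  have hpos : (0 : ℝ) < ((2 : ℝ) ^ δ) ^ K := by positivity
  rw [div_lt_div_iff₀ hpos (by positivity), pow_one, one_mul] at hK1
  have hK3 : (1 : ℝ) ≤ K := by exact_mod_cast hK2
  have hJ0 : (0 : ℝ) ≤ J := by positivity
  rw [Real.rpow_mul (by norm_num), Real.rpow_natCast]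
  push_cast
  nlinarith [mul_nonneg hJ0 (sub_nonneg.mpr hK3)]

theorem fin1 (k l : ℕ) (M : Finset (Fin k × Fin l))
    (hM : (SimpleGraph.fromRel (fun x y : Fin k ⊕ Fin l =>
          ∃ i j, x = Sum.inl i ∧ y = Sum.inr j ∧ (i, j) ∈ M)).IsAcyclic)
    (δ : ℝ) (hδ : 0 < δ) (ε : ℝ) (hε : 0 < ε) :
    ∃ N : ℕ, ∀ n : ℕ, N ≤ n → ∀ A : Finset (ℕ × ℕ), (∀ e ∈ A, e.1 < n ∧ e.2 < n) →
      ε * (n : ℝ) ^ (1 + δ) < A.card →
      ∃ (f : Fin k → ℕ) (g : Fin l → ℕ), StrictMono f ∧ StrictMono g ∧ (∀ a, f a < n) ∧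
        (∀ b, g b < n) ∧ ∀ p ∈ M, (f p.1, g p.2) ∈ A := by
  classical
  set J : ℕ := k + l + 1 with hJdef
  have hJ : 1 ≤ J := by omega
  have hJ1 : (1 : ℝ) ≤ J := by exact_mod_cast hJ
  set η : ℝ := δ / 8 with hηdef
  have hη : 0 < η := by positivity
  have hlog2 : 0 < Real.log 2 := Real.log_pos (by norm_num)
  obtain ⟨Kr, hKr0⟩ := exists_nat_ge (Real.log (4 * J) / (η * Real.log 2))
  have hKr : Real.log (4 * J) ≤ η * (Kr * Real.log 2) := by
    rw [div_le_iff₀ (by positivity)] at hKr0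
    linarith
  have hKr1 : 1 ≤ Kr := by
    rcases Nat.eq_zero_or_pos Kr with h | h
    · exfalso
      rw [h] at hKr
      have : 0 < Real.log (4 * J) := Real.log_pos (by linarith)
      simp at hKr
      linarith
    · exact h
  set R : ℕ := 2 ^ (2 * Kr) with hRdef
  have hR : 1 ≤ R := Nat.one_le_two_pow
  set θ : ℝ := η / (2 ^ (2 ^ Kr) * 2 ^ (2 * Kr)) with hθdef
  have hθ : 0 < θ := by positivity
  obtain ⟨m, hm⟩ := exists_nat_gt (4 * J * Real.log (1 / θ) * (1 + 16 * J * R) ^ (k + l))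
  obtain ⟨K, hK1, hK⟩ := fin_exp J (δ / 4) (by positivity)
  set D : ℝ := ((DD K ^ m : ℕ) : ℝ) with hD
  have hDpos : 0 < D := by
    rw [hD]
    unfold DD
    positivity
  set W : ℕ := 2 ^ (K * Kr) with hW
  have hW1 : 1 < W := by
    rw [hW]
    exact Nat.one_lt_two_pow (by positivity)
  have hW1' : (1 : ℝ) < W := by exact_mod_cast hW1
  -- the size of `n`
  have hN : ∀ᶠ n : ℕ in atTop, (W : ℝ) ^ (δ / 2) * D / ε ≤ (n : ℝ) ^ (δ / 2) :=
    ((tendsto_rpow_atTop (show 0 < δ / 2 by positivity)).comp tendsto_natCast_atTop_atTop).eventually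
      (eventually_ge_atTop _)
  obtain ⟨N0, hN0⟩ := eventually_atTop.mp hN
  refine ⟨max N0 2, fun n hn A hA hcard => ?_⟩
  have hn2 : 2 ≤ n := le_trans (le_max_right _ _) hn
  have hnN := hN0 n (le_trans (le_max_left _ _) hn)
  have hnpos : (0 : ℝ) < n := by
    have : 0 < n := by omega
    exact_mod_cast this
  set q : ℕ := Nat.clog W n with hq
  have hq1 : n ≤ W ^ q := Nat.le_pow_clog hW1 n
  have hq0 : 0 < q := Nat.clog_pos hW1 hn2
  have hq2 : W ^ q ≤ n * W := by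
    have h1 : W ^ (q - 1) < n := Nat.pow_pred_clog_lt_self hW1 (by omega)
    calc W ^ q = W ^ (q - 1) * W := by
          rw [← pow_succ]
          congr 1
          omega
      _ ≤ n * W := Nat.mul_le_mul_right _ h1.le
  set x : ℝ := ((W ^ q : ℕ) : ℝ) with hx
  have hx1 : 1 ≤ x := by
    rw [hx]
    exact_mod_cast Nat.one_le_pow _ _ (by omega)
  have hxpos : 0 < x := by linarith
  have hx2 : x ≤ n * W := by
    rw [hx]
    exact_mod_cast hq2
  -- the main numerical inequality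
  have H1 : x ^ (δ / 2) * D ≤ ε * (n : ℝ) ^ δ := by
    have h1 : x ^ (δ / 2) ≤ (n : ℝ) ^ (δ / 2) * (W : ℝ) ^ (δ / 2) := by
      rw [← Real.mul_rpow hnpos.le (by positivity)]
      exact Real.rpow_le_rpow hxpos.le hx2 (by positivity)
    rw [div_le_iff₀ hε] at hnN
    have h2 : (n : ℝ) ^ δ = (n : ℝ) ^ (δ / 2) * (n : ℝ) ^ (δ / 2) := by
      rw [← Real.rpow_add hnpos]
      congr 1
      ring
    have h3 : (0 : ℝ) < (n : ℝ) ^ (δ / 2) := by positivity
    calc x ^ (δ / 2) * D ≤ (n : ℝ) ^ (δ / 2) * (W : ℝ) ^ (δ / 2) * D :=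
          mul_le_mul_of_nonneg_right h1 hDpos.le
      _ = (n : ℝ) ^ (δ / 2) * ((W : ℝ) ^ (δ / 2) * D) := by ring
      _ ≤ (n : ℝ) ^ (δ / 2) * ((n : ℝ) ^ (δ / 2) * ε) := mul_le_mul_of_nonneg_left hnN h3.le
      _ = ε * (n : ℝ) ^ δ := by rw [h2]; ring
  have hn1δ : (n : ℝ) ^ (1 + δ) = n * (n : ℝ) ^ δ := by
    rw [Real.rpow_add hnpos, Real.rpow_one]
  -- the loss per level
  have hKx : ((((K + 1) * J) ^ (Kr * q) : ℕ) : ℝ) ≤ x ^ (δ / 4) := by
    have h1 : x ^ (δ / 4) = ((2 : ℝ) ^ (δ / 4 * K)) ^ (Kr * q) := by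
      rw [hx, hW]
      push_cast
      have h2 : (0 : ℝ) ≤ 2 := by norm_num
      rw [← Real.rpow_natCast, ← Real.rpow_natCast, ← Real.rpow_natCast, ← Real.rpow_mul h2,
        ← Real.rpow_mul h2, ← Real.rpow_mul (by positivity)]
      congr 1
      push_cast
      ring
    rw [h1]
    rw [Nat.cast_pow]
    exact pow_le_pow_left₀ (by positivity) hK _
  have hKx2 : ((((K + 1)) ^ (Kr * q) : ℕ) : ℝ) ≤ x ^ (δ / 4) := by
    refine le_trans ?_ hKx
    exact_mod_cast Nat.pow_le_pow_left (Nat.le_mul_of_pos_right _ hJ) _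
  have hx42 : x ^ (δ / 4) ≤ x ^ (δ / 2) := Real.rpow_le_rpow_of_exponent_le hx1 (by linarith)
  have hx4pos : 0 < x ^ (δ / 4) := by positivity
  -- BUILD
  set As : Finset (ℕ × ℕ) := A.image Prod.swap with hAs
  have hAsc : As.card = A.card := Finset.card_image_of_injective _ Prod.swap_injective
  have hAs1 : ∀ e ∈ As, (e.2, e.1) ∈ A := by
    intro e he
    rw [hAs, Finset.mem_image] at he
    obtain ⟨y, hy, rfl⟩ := he
    exact hy
  have hbig : n * ((K + 1) * J) ^ (Kr * q) * DD K ^ m < As.card := by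
    rw [hAsc]
    have : ((n * ((K + 1) * J) ^ (Kr * q) * DD K ^ m : ℕ) : ℝ) < (A.card : ℝ) := by
      rw [Nat.cast_mul, Nat.cast_mul]
      calc (n : ℝ) * ((((K + 1) * J) ^ (Kr * q) : ℕ) : ℝ) * ((DD K ^ m : ℕ) : ℝ)
          ≤ n * x ^ (δ / 2) * D := by
            apply mul_le_mul_of_nonneg_right _ hDpos.le
            exact mul_le_mul_of_nonneg_left (hKx.trans hx42) hnpos.le
        _ = n * (x ^ (δ / 2) * D) := by ring
        _ ≤ n * (ε * (n : ℝ) ^ δ) := mul_le_mul_of_nonneg_left H1 hnpos.le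
        _ = ε * (n : ℝ) ^ (1 + δ) := by rw [hn1δ]; ring
        _ < A.card := hcard
    exact_mod_cast this
  have hpw1 : (2 ^ K) ^ (Kr * q) = W ^ q := by
    rw [hW, ← pow_mul, ← pow_mul]
    congr 1
    ring
  have hpw2 : (2 ^ Kr) ^ (K * q) = W ^ q := by
    rw [hW, ← pow_mul, ← pow_mul]
    congr 1
    ring
  obtain ⟨T, ι, A', hA'A, hTc, hTq, hι, hA'c, hbal⟩ := build K J m (Kr * q) n hJ As
    (fun e he => (hA _ (hAs1 e he)).2) (fun e he => by
      rw [hpw1]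
      exact lt_of_lt_of_le (hA _ (hAs1 e he)).1 hq1) hbig
  rw [hAsc] at hA'c
  -- the size of `A'`
  have hA'big : (n : ℝ) * x ^ (δ / 4) < A'.card := by
    have h1 : (A.card : ℝ) ≤ x ^ (δ / 4) * D * A'.card := by
      have h2 : (A.card : ℝ) ≤ (((K + 1) ^ (Kr * q) : ℕ) : ℝ) * D * A'.card := by
        rw [hD]
        exact_mod_cast hA'c
      refine h2.trans ?_
      apply mul_le_mul_of_nonneg_right _ (by positivity)
      exact mul_le_mul_of_nonneg_right hKx2 hDpos.le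
    have h3 : (n : ℝ) * (x ^ (δ / 2) * D) < x ^ (δ / 4) * D * A'.card := by
      calc (n : ℝ) * (x ^ (δ / 2) * D) ≤ n * (ε * (n : ℝ) ^ δ) :=
            mul_le_mul_of_nonneg_left H1 hnpos.le
        _ = ε * (n : ℝ) ^ (1 + δ) := by rw [hn1δ]; ring
        _ < A.card := hcard
        _ ≤ _ := h1
    have h4 : x ^ (δ / 2) = x ^ (δ / 4) * x ^ (δ / 4) := by
      rw [← Real.rpow_add hxpos]
      congr 1
      ring
    rw [h4] at h3
    have h5 : (x ^ (δ / 4) * D) * (n * x ^ (δ / 4)) < (x ^ (δ / 4) * D) * A'.card := by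
      linarith
    exact lt_of_mul_lt_mul_left h5 (by positivity)
  have hA'ne : A'.Nonempty := by
    rw [← Finset.card_pos]
    have : (0 : ℝ) < A'.card := lt_of_le_of_lt (by positivity) hA'big
    exact_mod_cast this
  -- ROW
  set Ar : Finset (ℕ × ℕ) := A'.image Prod.swap with hAr
  have hArc : Ar.card = A'.card := Finset.card_image_of_injective _ Prod.swap_injective
  have hAr1 : ∀ e ∈ Ar, (e.2, e.1) ∈ A' := by
    intro e he
    rw [hAr, Finset.mem_image] at he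
    obtain ⟨y, hy, rfl⟩ := he
    exact hy
  have hAr2 : ∀ e ∈ Ar, (e.1, e.2) ∈ A := fun e he => hAs1 _ (hA'A (hAr1 e he))
  obtain ⟨τ, ιr, G, hGAr, hιr, -, hGc, hseg⟩ := rowstep Kr J (K * q) n hJ (by positivity) η hη hKr Ar
    (fun e he => (hA _ (hAr2 e he)).1) (fun e he => by
      rw [hpw2]
      exact lt_of_lt_of_le (hA _ (hAr2 e he)).2 hq1) (hA'ne.image _) (by
      rw [hArc]
      have h1 : 2 * η * (((K * q : ℕ) : ℝ) * (Kr * Real.log 2)) = Real.log (x ^ (δ / 4)) := by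
        rw [Real.log_rpow hxpos, hx, hW]
        push_cast
        rw [Real.log_pow, Real.log_pow, hηdef]
        push_cast
        ring
      rw [h1]
      apply Real.log_le_log hx4pos
      rw [le_div_iff₀ hnpos]
      linarith)
  rw [hArc] at hGc
  have hθG : θ * A'.card ≤ G.card := by
    rw [hθdef, div_mul_eq_mul_div, div_le_iff₀ (by positivity)]
    calc η * (A'.card : ℝ) ≤ 2 ^ 2 ^ Kr * 2 ^ (2 * Kr) * (G.card : ℝ) := hGc
      _ = G.card * (2 ^ 2 ^ Kr * 2 ^ (2 * Kr)) := by ring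
  have hGne : G.Nonempty := by
    rw [← Finset.card_pos]
    have h1 : (0 : ℝ) < A'.card := by exact_mod_cast hA'ne.card_pos
    have h2 : (0 : ℝ) < G.card := lt_of_lt_of_le (by positivity) hθG
    exact_mod_cast h2
  obtain ⟨f, g, hf, hg, hfG, hgG, hfg⟩ := core k l M hM J (by omega) (by omega) hJ (2 ^ K) (Kr * q) A'
    (fun e he => by
      rw [hpw1]
      exact lt_of_lt_of_le (hA _ (hAs1 _ (hA'A he))).1 hq1) T hTq ι (fun h hh => (hι h hh).1) hbal
    (2 ^ Kr) τ R hR ιr hιr G (fun e he => hAr1 e (hGAr he)) hseg θ hθ hθG hGne (by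
      rw [hTc]
      exact hm)
  refine ⟨f, g, hf, hg, fun a => ?_, fun b => ?_, fun p hp => hAr2 _ (hGAr (hfg p hp))⟩
  · obtain ⟨c, hc⟩ := hfG a
    exact (hA _ (hAr2 _ (hGAr hc))).1
  · obtain ⟨r, hr⟩ := hgG b
    exact (hA _ (hAr2 _ (hGAr hr))).2

/-- The frozen statement. -/
theorem final (k l : ℕ) (M : Finset (Fin k × Fin l))
    (hM : (SimpleGraph.fromRel (fun x y : Fin k ⊕ Fin l =>
          ∃ i j, x = Sum.inl i ∧ y = Sum.inr j ∧ (i, j) ∈ M)).IsAcyclic)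
    (c : ℝ) (hc : 1 < c) (ε : ℝ) (hε : 0 < ε) : ∃ N : ℕ, ∀ n : ℕ, N ≤ n →
        ∀ A : Finset (Fin n × Fin n),
          (¬ ∃ f : Fin k → Fin n, StrictMono f ∧ ∃ g : Fin l → Fin n, StrictMono g ∧
              ∀ p ∈ M, (f p.1, g p.2) ∈ A) →
          (A.card : ℝ) ≤ ε * (n : ℝ) ^ c := by
  classical
  obtain ⟨N, hN⟩ := fin1 k l M hM (c - 1) (by linarith) ε hε
  refine ⟨N, fun n hn A hav => ?_⟩
  by_contra hcon
  apply hav
  have hinj : Function.Injective (fun e : Fin n × Fin n => ((e.1.val, e.2.val) : ℕ × ℕ)) := by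
    intro a b hab
    simp only [Prod.mk.injEq] at hab
    exact Prod.ext (Fin.ext hab.1) (Fin.ext hab.2)
  have hc1 : (A.image (fun e : Fin n × Fin n => ((e.1.val, e.2.val) : ℕ × ℕ))).card = A.card :=
    Finset.card_image_of_injective _ hinj
  obtain ⟨f, g, hf, hg, hfn, hgn, hfg⟩ := hN n hn
    (A.image (fun e : Fin n × Fin n => ((e.1.val, e.2.val) : ℕ × ℕ))) (by
      intro e he
      rw [Finset.mem_image] at he
      obtain ⟨a, _, rfl⟩ := he
      exact ⟨a.1.isLt, a.2.isLt⟩) (by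
      rw [hc1]
      have : 1 + (c - 1) = c := by ring
      rw [this]
      exact lt_of_not_ge hcon)
  refine ⟨fun a => ⟨f a, hfn a⟩, fun a b hab => hf hab, fun b => ⟨g b, hgn b⟩,
    fun a b hab => hg hab, fun p hp => ?_⟩
  have := hfg p hp
  rw [Finset.mem_image] at this
  obtain ⟨a, ha, hae⟩ := this
  simp only [Prod.mk.injEq] at hae
  have : a = (⟨f p.1, hfn p.1⟩, ⟨g p.2, hgn p.2⟩) := Prod.ext (Fin.ext hae.1) (Fin.ext hae.2)
  rw [← this]
  exact ha

end Pool.Agent.PTC
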